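import Pool.Agent.T9h32.FP.Cmp

/-! The main theorem: finite image, eigenvalues of Tate type, and comparison. -/

set_option autoImplicit false

open Matrix IsLocalRing Finset NumberField Topology Polynomial Module

namespace Pool.Agent.T9h32.FP

attribute [local instance 10] DivisionRing.toRatAlgebra

open Pool.Agent.Y800 Pool.Agent.Y802.TS

/-- representations with Frobenius elements of finite order or with eigenvalues of Tate type, at almost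
all members of a sparse sequence -/
theorem rep_main (T : ℕ → ℕ) (hT1 : ∀ i, (T i).Prime) (hTge : ∀ j, j < T j)
    (g : ℕ → GQ) (hg : ∀ U : Subgroup GQ, IsOpen (U : Set GQ) → ∀ (γ : GQ) (j0 : ℕ),
      ∃ j, j0 ≤ j ∧ γ⁻¹ * g j ∈ U)
    (N : ℕ → ℕ) (hN : ∀ j, 1 ≤ N j) (x : ℕ → GQ) (hx1 : ∀ i, Fr (T i) (x i))
    (hx2 : ∀ j, x j * (g j ^ N j)⁻¹ ∈ Hj j (N j)) :
      ∀ (Γ : Subgroup GQ), IsOpen (Γ : Set GQ) → ∀ (p : ℕ) [Fact p.Prime] (n : ℕ)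
        (ρ : Γ →* GL (Fin n) ℚ_[p]), Continuous ρ →
        (∃ S : Finset ℕ, ∀ q : ℕ, q.Prime → q ∉ S → ∀ P : Ideal ZBar, P.IsMaximal →
          (q : ZBar) ∈ P → ∀ τ : GQ, ∀ h : τ ∈ Γ, InInertia P τ → ρ ⟨τ, h⟩ = 1) →
        ((∃ i0, ∀ i ≥ i0, ∀ P : Ideal ZBar, P.IsMaximal → (T i : ZBar) ∈ P →
          ∀ σ : GQ, ∀ h : σ ∈ Γ, IsGeomFrob (T i) P σ → ∃ a : ℕ, a ≠ 0 ∧ ρ ⟨σ, h⟩ ^ a = 1) →
          (Set.range ρ).Finite) ∧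
        (Pool.Agent.Y802.Irr ρ → 0 < n → ∀ M : List ℤ,
          (∃ i0, ∀ i ≥ i0, ∀ P : Ideal ZBar, P.IsMaximal → (T i : ZBar) ∈ P →
            ∀ σ : GQ, ∀ h : σ ∈ Γ, IsGeomFrob (T i) P σ →
            ∀ z : AlgebraicClosure ℚ_[p],
              aeval z (ρ ⟨σ, h⟩ : Matrix (Fin n) (Fin n) ℚ_[p]).charpoly = 0 →
              ∃ a : ℕ, 0 < a ∧ ∃ m ∈ M, z ^ a = (T i : AlgebraicClosure ℚ_[p]) ^ (m * a : ℤ)) →
          ∃ m ∈ M, (Set.range (tw ρ (cycU p Γ) m)).Finite) := by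
  intro Γ hΓ p hp n ρ hρ hS
  obtain ⟨S, hS⟩ := hS
  constructor
  · rintro ⟨i0, hi0⟩
    obtain ⟨U, hU, hUΓ, h1⟩ := est_padic p n hΓ ρ hρ S hS g hg N hN x hx2 [0] 1 i0 (by
      intro j hj h
      obtain ⟨P, hP, hTP, hxP⟩ := hx1 j
      obtain ⟨a, ha, h1⟩ := hi0 j hj P hP hTP (x j) h hxP
      refine ⟨a, ha, ?_⟩
      have h2 : (ρ ⟨x j, h⟩ : Matrix (Fin n) (Fin n) ℚ_[p]) ^ a = 1 := by
        rw [← Units.val_pow_eq_pow_val, h1, Units.val_one]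
      rw [pow_one, List.map_cons, List.map_nil, Pr_cons, Pr_nil, mul_one, zpow_zero, one_pow,
        one_smul, h2, sub_self])
    refine finite_of_trivial ρ U hU ?_
    intro γ hγ h
    have h2 := h1 γ hγ h
    rw [pow_one, List.map_cons, List.map_nil, Pr_cons, Pr_nil, mul_one, zpow_zero, one_smul,
      sub_eq_zero] at h2
    exact Units.ext h2
  · rintro hirr hn M ⟨i0, hi0⟩
    obtain ⟨U, hU, hUΓ, h1⟩ := est_padic p n hΓ ρ hρ S hS g hg N hN x hx2 M n (max i0 (p + 1)) (by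
      intro j hj h
      obtain ⟨P, hP, hTP, hxP⟩ := hx1 j
      have hjp : T j ≠ p := by
        have h3 := hTge j
        have h4 : p + 1 ≤ j := le_trans (le_max_right _ _) hj
        omega
      have hq0 : ((T j : ℕ) : ℚ_[p]) ≠ 0 := by exact_mod_cast (hT1 j).ne_zero
      obtain ⟨a, ha, h2⟩ := eig (ρ ⟨x j, h⟩ : Matrix (Fin n) (Fin n) ℚ_[p]) M (T j : ℚ_[p]) hq0 (by
        intro z hz
        rw [map_natCast]
        exact hi0 j (le_trans (le_max_left _ _) hj) P hP hTP (x j) h hxP z hz)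
      refine ⟨a, ha, ?_⟩
      have h3 : cycQ p (x j) = ((T j : ℕ) : ℚ_[p])⁻¹ := cyc_frob p (hT1 j) hjp hP hTP hxP
      rw [h3]
      exact h2)
    have hfi : (U.subgroupOf Γ).FiniteIndex := by
      have := finiteIndex_of_open hU
      infer_instance
    apply conc ρ hirr hn (fun m hm _ => by
      have : m ≠ 0 := by omega
      exact_mod_cast this) (cycU p Γ) (U.subgroupOf Γ) hfi M n
    intro u hu
    have h2 := h1 u.1 hu u.2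
    rw [← h2]
    congr 3
    ext m
    rw [Units.val_zpow_eq_zpow_val, cycU_val]

/-- **The main theorem.** -/
theorem all_main (f : ℕ → ℕ) :
    ∃ (T : ℕ → ℕ) (k L : IntermediateField ℚ (AlgebraicClosure ℚ)),
      (∀ i, (T i).Prime) ∧ (∀ i, f (T i) + T i < T (i + 1)) ∧ IsTower k L T ∧
      ∀ (p : ℕ) [Fact p.Prime] (n d : ℕ) (S : Finset ℕ) (M : List ℤ) (i0 : ℕ), ∃ m : ℕ,
        ∀ Γ ∈ Gd S d, ∀ ρ : Γ →* GL (Fin n) ℚ_[p], Continuous ρ →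
          (∀ q : ℕ, q.Prime → q ∉ S → ∀ P : Ideal ZBar, P.IsMaximal → (q : ZBar) ∈ P →
            ∀ τ : GQ, ∀ h : τ ∈ Γ, InInertia P τ → ρ ⟨τ, h⟩ = 1) →
          ((∀ i, i0 ≤ i → i < m → T i ∉ S → T i ≠ p → ∀ P : Ideal ZBar, P.IsMaximal →
            (T i : ZBar) ∈ P → ∀ σ : GQ, ∀ h : σ ∈ Γ, IsGeomFrob (T i) P σ →
            ∃ a : ℕ, a ≠ 0 ∧ ρ ⟨σ, h⟩ ^ a = 1) → (Set.range ρ).Finite) ∧
          (Pool.Agent.Y802.Irr ρ → 0 < n →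
            (∀ i, i0 ≤ i → i < m → T i ∉ S → T i ≠ p → ∀ P : Ideal ZBar, P.IsMaximal →
            (T i : ZBar) ∈ P → ∀ σ : GQ, ∀ h : σ ∈ Γ, IsGeomFrob (T i) P σ →
            ∀ z : AlgebraicClosure ℚ_[p],
              aeval z (ρ ⟨σ, h⟩ : Matrix (Fin n) (Fin n) ℚ_[p]).charpoly = 0 →
              ∃ a : ℕ, 0 < a ∧ ∃ w ∈ M, z ^ a = (T i : AlgebraicClosure ℚ_[p]) ^ (w * a : ℤ)) →
            ∃ w ∈ M, (Set.range (tw ρ (cycU p Γ) w)).Finite) ∧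
          (0 < n → ∀ ρ' : Γ →* GL (Fin n) ℚ_[p], Continuous ρ' →
            (∀ q : ℕ, q.Prime → q ∉ S → ∀ P : Ideal ZBar, P.IsMaximal → (q : ZBar) ∈ P →
              ∀ τ : GQ, ∀ h : τ ∈ Γ, InInertia P τ → ρ' ⟨τ, h⟩ = 1) →
            (∀ i, i0 ≤ i → i < m → T i ∉ S → T i ≠ p → ∀ P : Ideal ZBar, P.IsMaximal →
              (T i : ZBar) ∈ P → ∀ σ : GQ, ∀ h : σ ∈ Γ, IsGeomFrob (T i) P σ → ∃ a : ℕ, a ≠ 0 ∧
              ((ρ ⟨σ, h⟩ : Matrix (Fin n) (Fin n) ℚ_[p]) ^ a).charpoly =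
              ((ρ' ⟨σ, h⟩ : Matrix (Fin n) (Fin n) ℚ_[p]) ^ a).charpoly) →
            ∃ U : Subgroup Γ, IsOpen (U : Set Γ) ∧
              (∀ u ∈ U, (ρ u : Matrix (Fin n) (Fin n) ℚ_[p]).trace =
                (ρ' u : Matrix (Fin n) (Fin n) ℚ_[p]).trace) ∧
              ∃ (W : Submodule ℚ_[p] (Fin n → ℚ_[p]))
                (f : (Fin n → ℚ_[p]) →ₗ[ℚ_[p]] (Fin n → ℚ_[p])),
                (∀ u ∈ U, ∀ w ∈ W, (ρ' u : Matrix (Fin n) (Fin n) ℚ_[p]) *ᵥ w ∈ W ∧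
                  f ((ρ' u : Matrix (Fin n) (Fin n) ℚ_[p]) *ᵥ w) =
                    (ρ u : Matrix (Fin n) (Fin n) ℚ_[p]) *ᵥ f w) ∧
                ∃ w ∈ W, f w ≠ 0) := by
  obtain ⟨g, hg⟩ := exists_dense
  obtain ⟨k, L, T, N, x, hT1, hT2, htow, hx1, hN, hx2⟩ := exists_tower f g
  refine ⟨T, k, L, hT1, hT2, htow, ?_⟩
  have hTge : ∀ j, j < T j := by
    intro j
    induction j with
    | zero => exact (hT1 0).pos
    | succ j ih =>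
      have := hT2 j
      omega
  have hrep := rep_main T hT1 hTge g hg N hN x hx1 hx2
  intro p hp n d S M i0
  obtain ⟨m1, hm1⟩ := unif S d (fun Γ m => ∀ ρ : Γ →* GL (Fin n) ℚ_[p], Continuous ρ →
      (∀ q : ℕ, q.Prime → q ∉ S → ∀ P : Ideal ZBar, P.IsMaximal → (q : ZBar) ∈ P →
        ∀ τ : GQ, ∀ h : τ ∈ Γ, InInertia P τ → ρ ⟨τ, h⟩ = 1) →
      (∀ i, i0 ≤ i → i < m → T i ∉ S → T i ≠ p → ∀ P : Ideal ZBar, P.IsMaximal → (T i : ZBar) ∈ P →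
        ∀ σ : GQ, ∀ h : σ ∈ Γ, IsGeomFrob (T i) P σ → ∃ a : ℕ, a ≠ 0 ∧ ρ ⟨σ, h⟩ ^ a = 1) →
      ∀ i, i0 ≤ i → T i ∉ S → T i ≠ p → ∀ P : Ideal ZBar, P.IsMaximal → (T i : ZBar) ∈ P →
        ∀ σ : GQ, ∀ h : σ ∈ Γ, IsGeomFrob (T i) P σ → ∃ a : ℕ, a ≠ 0 ∧ ρ ⟨σ, h⟩ ^ a = 1) (by
      intro Γ m m' hmm h1 ρ hρ hS h2
      exact h1 ρ hρ hS fun i hi0 him => h2 i hi0 (lt_of_lt_of_le him hmm)) (by
      rintro Γ ⟨h1, h2, h3⟩
      exact stab_ord h1 h3 T i0)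
  obtain ⟨m2, hm2⟩ := unif S d (fun Γ m => ∀ ρ : Γ →* GL (Fin n) ℚ_[p], Continuous ρ →
      (∀ q : ℕ, q.Prime → q ∉ S → ∀ P : Ideal ZBar, P.IsMaximal → (q : ZBar) ∈ P →
        ∀ τ : GQ, ∀ h : τ ∈ Γ, InInertia P τ → ρ ⟨τ, h⟩ = 1) →
      (∀ i, i0 ≤ i → i < m → T i ∉ S → T i ≠ p → ∀ P : Ideal ZBar, P.IsMaximal → (T i : ZBar) ∈ P →
        ∀ σ : GQ, ∀ h : σ ∈ Γ, IsGeomFrob (T i) P σ → ∀ z : AlgebraicClosure ℚ_[p],
              aeval z (ρ ⟨σ, h⟩ : Matrix (Fin n) (Fin n) ℚ_[p]).charpoly = 0 →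
              ∃ a : ℕ, 0 < a ∧ ∃ w ∈ M, z ^ a = (T i : AlgebraicClosure ℚ_[p]) ^ (w * a : ℤ)) →
      ∀ i, i0 ≤ i → T i ∉ S → T i ≠ p → ∀ P : Ideal ZBar, P.IsMaximal → (T i : ZBar) ∈ P →
        ∀ σ : GQ, ∀ h : σ ∈ Γ, IsGeomFrob (T i) P σ → ∀ z : AlgebraicClosure ℚ_[p],
              aeval z (ρ ⟨σ, h⟩ : Matrix (Fin n) (Fin n) ℚ_[p]).charpoly = 0 →
              ∃ a : ℕ, 0 < a ∧ ∃ w ∈ M, z ^ a = (T i : AlgebraicClosure ℚ_[p]) ^ (w * a : ℤ)) (by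
      intro Γ m m' hmm h1 ρ hρ hS h2
      exact h1 ρ hρ hS fun i hi0 him => h2 i hi0 (lt_of_lt_of_le him hmm)) (by
      rintro Γ ⟨h1, h2, h3⟩
      exact stab_eig h1 h3 T hT1 M i0)
  obtain ⟨m3, hm3⟩ := unif S d (fun Γ m => ∀ ρ ρ' : Γ →* GL (Fin n) ℚ_[p], Continuous ρ →
      Continuous ρ' →
      (∀ q : ℕ, q.Prime → q ∉ S → ∀ P : Ideal ZBar, P.IsMaximal → (q : ZBar) ∈ P →
        ∀ τ : GQ, ∀ h : τ ∈ Γ, InInertia P τ → ρ ⟨τ, h⟩ = 1) →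
      (∀ q : ℕ, q.Prime → q ∉ S → ∀ P : Ideal ZBar, P.IsMaximal → (q : ZBar) ∈ P →
        ∀ τ : GQ, ∀ h : τ ∈ Γ, InInertia P τ → ρ' ⟨τ, h⟩ = 1) →
      (∀ i, i0 ≤ i → i < m → T i ∉ S → T i ≠ p → ∀ P : Ideal ZBar, P.IsMaximal → (T i : ZBar) ∈ P →
        ∀ σ : GQ, ∀ h : σ ∈ Γ, IsGeomFrob (T i) P σ → ∃ a : ℕ, a ≠ 0 ∧
          ((ρ ⟨σ, h⟩ : Matrix (Fin n) (Fin n) ℚ_[p]) ^ a).charpoly =
          ((ρ' ⟨σ, h⟩ : Matrix (Fin n) (Fin n) ℚ_[p]) ^ a).charpoly) →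
      ∃ U : Subgroup GQ, IsOpen (U : Set GQ) ∧ U ≤ Γ ∧ ∀ u ∈ U, ∀ h : u ∈ Γ,
        (ρ ⟨u, h⟩ : Matrix (Fin n) (Fin n) ℚ_[p]).trace =
          (ρ' ⟨u, h⟩ : Matrix (Fin n) (Fin n) ℚ_[p]).trace) (by
      intro Γ m m' hmm h1 ρ ρ' hρ hρ' hS hS' h2
      exact h1 ρ ρ' hρ hρ' hS hS' fun i hi0 him => h2 i hi0 (lt_of_lt_of_le him hmm)) (by
      rintro Γ ⟨h1, h2, h3⟩
      exact cmp_one h1 h3 g hg N hN x hx2 T hTge hx1 i0)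
  -- beyond this index the primes are not in `S` and not equal to `p`
  let i1 : ℕ := max i0 (max (S.sup id) p)
  have hi1 : ∀ i ≥ i1, i0 ≤ i ∧ T i ∉ S ∧ T i ≠ p := by
    intro i hi
    have h1 : i0 ≤ i := le_trans (le_max_left _ _) hi
    have h2 : S.sup id ≤ i := le_trans (le_trans (le_max_left _ _) (le_max_right _ _)) hi
    have h3 : p ≤ i := le_trans (le_trans (le_max_right _ _) (le_max_right _ _)) hi
    have h4 := hTge i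
    refine ⟨h1, fun h5 => ?_, by omega⟩
    have h6 : T i ≤ S.sup id := Finset.le_sup (f := id) h5
    omega
  refine ⟨max (max m1 m2) m3, fun Γ hΓ ρ hρ hS => ⟨fun hord => ?_, fun hirr hn heig => ?_,
    fun hn ρ' hρ' hS' hcmp => ?_⟩⟩
  · have h1 := hm1 Γ hΓ ρ hρ hS fun i hi0 him => hord i hi0
      (lt_of_lt_of_le him ((le_max_left _ _).trans (le_max_left _ _)))
    refine (hrep Γ hΓ.1 p n ρ hρ ⟨S, hS⟩).1 ⟨i1, fun i hi => ?_⟩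
    obtain ⟨h2, h3, h4⟩ := hi1 i hi
    exact h1 i h2 h3 h4
  · have h1 := hm2 Γ hΓ ρ hρ hS fun i hi0 him => heig i hi0
      (lt_of_lt_of_le him ((le_max_right _ _).trans (le_max_left _ _)))
    refine (hrep Γ hΓ.1 p n ρ hρ ⟨S, hS⟩).2 hirr hn M ⟨i1, fun i hi => ?_⟩
    obtain ⟨h2, h3, h4⟩ := hi1 i hi
    exact h1 i h2 h3 h4
  · obtain ⟨U, hU, hUΓ, htr⟩ := hm3 Γ hΓ ρ ρ' hρ hρ' hS hS' fun i hi0 him => hcmp i hi0
      (lt_of_lt_of_le him (le_max_right _ _))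
    let U' : Subgroup Γ := U.subgroupOf Γ
    have htr' : ∀ u ∈ U', (ρ u : Matrix (Fin n) (Fin n) ℚ_[p]).trace =
        (ρ' u : Matrix (Fin n) (Fin n) ℚ_[p]).trace := fun u hu => htr u.1 hu u.2
    obtain ⟨W, f, h1, h2⟩ := common_const hn (ρ.comp U'.subtype) (ρ'.comp U'.subtype)
      (fun u => htr' u.1 u.2)
    refine ⟨U', hU.preimage continuous_subtype_val, htr', W, f, fun u hu w hw => ?_, h2⟩
    exact h1 ⟨u, hu⟩ w hw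

end Pool.Agent.T9h32.FP
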