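import Mathlib

/-! Characteristic polynomials of powers. -/

set_option autoImplicit false

open Polynomial Matrix

namespace Pool.Agent.T9h32.FP

theorem det_aeval {K : Type*} [Field K] [IsAlgClosed K] {n : ℕ} {A B : Matrix (Fin n) (Fin n) K}
    (h : A.charpoly = B.charpoly) (f : K[X]) : (aeval A f).det = (aeval B f).det := by
  let D : Matrix (Fin n) (Fin n) K → K[X] →* K := fun A => Matrix.detMonoidHom.comp
    ((aeval A : K[X] →ₐ[K] Matrix (Fin n) (Fin n) K) : K[X] →* Matrix (Fin n) (Fin n) K)
  have hD : ∀ A g, D A g = (aeval A g).det := fun A g => rfl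
  have key : ∀ (A : Matrix (Fin n) (Fin n) K), (aeval A f).det =
      f.leadingCoeff ^ n * (f.roots.map fun a => (-1) ^ n * A.charpoly.eval a).prod := by
    intro A
    have h1 := (IsAlgClosed.splits f).eq_prod_roots
    have h2 : D A (C f.leadingCoeff) = f.leadingCoeff ^ n := by
      rw [hD, aeval_C, Algebra.algebraMap_eq_smul_one, Matrix.det_smul, Matrix.det_one, mul_one,
        Fintype.card_fin]
    have h3 : ∀ a : K, D A (X - C a) = (-1) ^ n * A.charpoly.eval a := by
      intro a
      rw [hD, map_sub, aeval_X, aeval_C, Matrix.eval_charpoly]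
      have h4 : A - algebraMap K (Matrix (Fin n) (Fin n) K) a =
          -(Matrix.scalar (Fin n) a - A) := by
        rw [neg_sub]
        rfl
      rw [h4, Matrix.det_neg, Fintype.card_fin]
    calc (aeval A f).det = D A f := (hD A f).symm
      _ = D A (C f.leadingCoeff * (f.roots.map fun a => X - C a).prod) := by rw [← h1]
      _ = _ := by
        rw [map_mul, h2, map_multiset_prod, Multiset.map_map]
        congr 2
        apply Multiset.map_congr rfl
        intro a _
        exact h3 a
  rw [key A, key B, h]

theorem charpoly_pow_eq' {K : Type*} [Field K] [IsAlgClosed K] {n : ℕ}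
    {A B : Matrix (Fin n) (Fin n) K} (h : A.charpoly = B.charpoly) (l : ℕ) :
    (A ^ l).charpoly = (B ^ l).charpoly := by
  apply Polynomial.funext
  intro t
  have key : ∀ A : Matrix (Fin n) (Fin n) K, eval t (A ^ l).charpoly =
      (aeval A (C t - X ^ l)).det := by
    intro A
    rw [Matrix.eval_charpoly, map_sub, map_pow (aeval A) X l, aeval_X, aeval_C]
    rfl
  rw [key, key, det_aeval h]

/-- the traces of the powers are determined by the characteristic polynomial -/
theorem trace_pow_eq {F : Type*} [Field F] {n : ℕ}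
    {A B : Matrix (Fin n) (Fin n) F} (h : A.charpoly = B.charpoly) (l : ℕ) :
    (A ^ l).trace = (B ^ l).trace := by
  let K := AlgebraicClosure F
  let φ : F →+* K := algebraMap F K
  have h1 : (φ.mapMatrix A).charpoly = (φ.mapMatrix B).charpoly := by
    have e1 : (φ.mapMatrix A).charpoly = A.charpoly.map φ := Matrix.charpoly_map A φ
    have e2 : (φ.mapMatrix B).charpoly = B.charpoly.map φ := Matrix.charpoly_map B φ
    rw [e1, e2, h]
  have h2 := charpoly_pow_eq' h1 l
  have h3 : ((φ.mapMatrix A) ^ l).trace = ((φ.mapMatrix B) ^ l).trace := by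
    rw [Matrix.trace_eq_neg_charpoly_nextCoeff, Matrix.trace_eq_neg_charpoly_nextCoeff, h2]
  rw [← map_pow, ← map_pow] at h3
  have h4 : ∀ Z : Matrix (Fin n) (Fin n) F, (φ.mapMatrix Z).trace = φ Z.trace := by
    intro Z
    simp [Matrix.trace, map_sum]
  rw [h4, h4] at h3
  exact φ.injective h3

end Pool.Agent.T9h32.FP
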