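import Pool.Agent.T9h32.FP.Pow
import Pool.Agent.Y802.TS.Padic
import Pool.Agent.Y802.TS.Star

/-! Linear functionals which vanish on the powers of the Frobenius elements of a sparse set. -/

set_option autoImplicit false

open Matrix IsLocalRing Finset NumberField Topology

namespace Pool.Agent.T9h32.FP

attribute [local instance 10] DivisionRing.toRatAlgebra

open Pool.Agent.Y800 Pool.Agent.Y802.TS

section

variable {p : ℕ} [hp : Fact p.Prime] {n : ℕ}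

theorem exists_smul {i : ℕ} {X : Matrix (Fin n) (Fin n) ℤ_[p]}
    (h : ∀ a b, X a b ∈ maximalIdeal ℤ_[p] ^ i) :
    ∃ Y : Matrix (Fin n) (Fin n) ℤ_[p], X = (p : ℤ_[p]) ^ i • Y := by
  have h1 : ∀ a b, ∃ y, X a b = (p : ℤ_[p]) ^ i * y := by
    intro a b
    have h2 := h a b
    rw [PadicInt.maximalIdeal_eq_span_p, Ideal.span_singleton_pow, Ideal.mem_span_singleton] at h2
    exact h2
  choose Y hY using h1
  exact ⟨Matrix.of Y, by ext a b; exact hY a b⟩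

theorem tau_dvd (τ : Matrix (Fin n) (Fin n) ℤ_[p] →ₗ[ℤ_[p]] ℤ_[p]) {i : ℕ}
    {X X' : Matrix (Fin n) (Fin n) ℤ_[p]}
    (h : ∀ a b, X a b - X' a b ∈ maximalIdeal ℤ_[p] ^ i) (h' : (p : ℤ_[p]) ^ i ∣ τ X') :
    (p : ℤ_[p]) ^ i ∣ τ X := by
  obtain ⟨Y, hY⟩ := exists_smul (X := X - X') h
  have h1 : X = X' + (p : ℤ_[p]) ^ i • Y := by rw [← hY]; abel
  rw [h1, map_add, map_smul, smul_eq_mul]
  exact dvd_add h' (dvd_mul_right _ _)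

theorem eq_one_add {X : Matrix (Fin n) (Fin n) ℤ_[p]}
    (h : ∀ a b, (X - 1) a b ∈ maximalIdeal ℤ_[p] ^ 2) :
    ∃ Y : Matrix (Fin n) (Fin n) ℤ_[p], X = 1 + (p : ℤ_[p]) ^ 2 • Y := by
  obtain ⟨Y, hY⟩ := exists_smul h
  exact ⟨Y, by rw [← hY]; abel⟩

theorem pow_congr {J : Ideal ℤ_[p]} {X X' : Matrix (Fin n) (Fin n) ℤ_[p]}
    (h : ∀ a b, X a b - X' a b ∈ J) (l : ℕ) (a b : Fin n) : (X ^ l) a b - (X' ^ l) a b ∈ J := by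
  have h1 : (Ideal.Quotient.mk J).mapMatrix X = (Ideal.Quotient.mk J).mapMatrix X' := by
    ext i j
    exact Ideal.Quotient.eq.2 (h i j)
  have h3 : (Ideal.Quotient.mk J).mapMatrix (X ^ l) = (Ideal.Quotient.mk J).mapMatrix (X' ^ l) := by
    rw [map_pow, map_pow, h1]
  exact Ideal.Quotient.eq.1 (congrFun (congrFun h3 a) b)

variable {Γ : Subgroup GQ}

theorem Kj_diff (ρ : Γ →* GL (Fin n) ℤ_[p]) {i : ℕ} {x y : GQ} (hx : x ∈ Γ) (hy : y ∈ Γ)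
    (h : x * y⁻¹ ∈ Kj ρ (maximalIdeal ℤ_[p] ^ i)) (a b : Fin n) :
    (ρ ⟨x, hx⟩ : Matrix (Fin n) (Fin n) ℤ_[p]) a b -
      (ρ ⟨y, hy⟩ : Matrix (Fin n) (Fin n) ℤ_[p]) a b ∈ maximalIdeal ℤ_[p] ^ i := by
  obtain ⟨h1, h2⟩ := (mem_Kj ρ).1 h
  have h3 : (ρ ⟨x, hx⟩ : Matrix (Fin n) (Fin n) ℤ_[p]) - (ρ ⟨y, hy⟩ : Matrix (Fin n) (Fin n) ℤ_[p]) =
      ((ρ ⟨x * y⁻¹, h1⟩ : Matrix (Fin n) (Fin n) ℤ_[p]) - 1) * ρ ⟨y, hy⟩ := by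
    have e1 : (⟨x * y⁻¹, h1⟩ : Γ) = ⟨x, hx⟩ * ⟨y, hy⟩⁻¹ := rfl
    rw [e1, sub_mul, one_mul, ← Units.val_mul, ← map_mul, inv_mul_cancel_right]
  have h4 := congrFun (congrFun h3 a) b
  rw [Matrix.sub_apply] at h4
  rw [h4, Matrix.mul_apply]
  exact Ideal.sum_mem _ fun c _ => Ideal.mul_mem_right _ _ (h2 a c)

/-- **The main estimate.** -/
theorem est_tau (hΓ : IsOpen (Γ : Set GQ)) (ρ : Γ →* GL (Fin n) ℤ_[p])
    (hopen : ∀ i, IsOpen (Kj ρ (maximalIdeal ℤ_[p] ^ i) : Set GQ)) (S : Finset ℕ) (hS : UnrOut ρ S)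
    (τ : Matrix (Fin n) (Fin n) ℤ_[p] →ₗ[ℤ_[p]] ℤ_[p])
    (g : ℕ → GQ) (hg : ∀ U : Subgroup GQ, IsOpen (U : Set GQ) → ∀ (γ : GQ) (j0 : ℕ),
      ∃ j, j0 ≤ j ∧ γ⁻¹ * g j ∈ U)
    (N : ℕ → ℕ) (hN : ∀ j, 1 ≤ N j) (x : ℕ → GQ)
    (hx : ∀ j, x j * (g j ^ N j)⁻¹ ∈ Hj j (N j)) (j1 : ℕ)
    (hfrob : ∀ j ≥ j1, ∀ h : x j ∈ Γ, ∃ a : ℕ, a ≠ 0 ∧
      ∀ l : ℕ, τ ((ρ ⟨x j, h⟩ : Matrix (Fin n) (Fin n) ℤ_[p]) ^ (a * l)) = 0) :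
    ∀ u ∈ Kj ρ (maximalIdeal ℤ_[p] ^ 2), ∀ h : u ∈ Γ,
      τ (ρ ⟨u, h⟩ : Matrix (Fin n) (Fin n) ℤ_[p]) = 0 := by
  intro u hu huΓ
  obtain ⟨j2, hj2⟩ := star ρ hΓ (fun i => maximalIdeal ℤ_[p] ^ i) (fun i => (card_quot p i).1)
    (grow_padic p n) hopen _ hS
  have key : ∀ k : ℕ, (p : ℤ_[p]) ^ k ∣ τ (ρ ⟨u, huΓ⟩ : Matrix (Fin n) (Fin n) ℤ_[p]) := by
    intro k
    obtain ⟨j, hj, hgj⟩ := hg (Kj ρ (maximalIdeal ℤ_[p] ^ (max k 2))) (hopen _) u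
      (max (max j1 j2) (2 * k + 2))
    have hjj1 : j1 ≤ j := le_trans (le_trans (le_max_left _ _) (le_max_left _ _)) hj
    have hjj2 : j2 ≤ j := le_trans (le_trans (le_max_right _ _) (le_max_left _ _)) hj
    have hjk : 2 * k + 2 ≤ j := le_trans (le_max_right _ _) hj
    have hle2 : Kj ρ (maximalIdeal ℤ_[p] ^ (max k 2)) ≤ Kj ρ (maximalIdeal ℤ_[p] ^ 2) :=
      Kj_mono ρ (Ideal.pow_le_pow_right (le_max_right _ _))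
    have hlek : Kj ρ (maximalIdeal ℤ_[p] ^ (max k 2)) ≤ Kj ρ (maximalIdeal ℤ_[p] ^ k) :=
      Kj_mono ρ (Ideal.pow_le_pow_right (le_max_left _ _))
    have hg2 : g j ∈ Kj ρ (maximalIdeal ℤ_[p] ^ 2) := by
      have h1 := (Kj ρ (maximalIdeal ℤ_[p] ^ 2)).mul_mem hu (hle2 hgj)
      rwa [mul_inv_cancel_left] at h1
    have hx1 : x j * (g j ^ N j)⁻¹ ∈ Kj ρ (maximalIdeal ℤ_[p] ^ (j * N j)) :=
      hj2 j hjj2 (N j) (hN j) (hx j)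
    have hjN : 2 ≤ j * N j := by
      have := hN j
      calc 2 ≤ j * 1 := by omega
        _ ≤ j * N j := Nat.mul_le_mul_left _ this
    have hx2 : x j ∈ Kj ρ (maximalIdeal ℤ_[p] ^ 2) := by
      have h1 := (Kj ρ (maximalIdeal ℤ_[p] ^ 2)).mul_mem
        (Kj_mono ρ (Ideal.pow_le_pow_right hjN) hx1)
        ((Kj ρ (maximalIdeal ℤ_[p] ^ 2)).pow_mem hg2 (N j))
      rwa [inv_mul_cancel_right] at h1
    obtain ⟨hgΓ, hg3⟩ := (mem_Kj ρ).1 hg2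
    obtain ⟨hxΓ, hx3⟩ := (mem_Kj ρ).1 hx2
    obtain ⟨Y, hY⟩ := eq_one_add hg3
    obtain ⟨Y', hY'⟩ := eq_one_add hx3
    -- the functional vanishes at the powers of the Frobenius element
    have h1 : ∀ i : ℕ, τ ((ρ ⟨x j, hxΓ⟩ : Matrix (Fin n) (Fin n) ℤ_[p]) ^ i) = 0 := by
      obtain ⟨a, ha, h2⟩ := hfrob j hjj1 hxΓ
      rw [hY'] at h2 ⊢
      exact tau_zero τ Y' a (Nat.pos_of_ne_zero ha) h2
    -- approximation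
    have h2 : ∀ l : ℕ, (p : ℤ_[p]) ^ (j * N j) ∣
        τ ((ρ ⟨g j, hgΓ⟩ : Matrix (Fin n) (Fin n) ℤ_[p]) ^ (N j * l)) := by
      intro l
      have h3 := Kj_diff ρ hxΓ (Γ.pow_mem hgΓ (N j)) hx1
      have e1 : (⟨g j ^ N j, Γ.pow_mem hgΓ (N j)⟩ : Γ) = ⟨g j, hgΓ⟩ ^ N j := rfl
      rw [e1, map_pow, Units.val_pow_eq_pow_val] at h3
      rw [pow_mul (ρ ⟨g j, hgΓ⟩ : Matrix (Fin n) (Fin n) ℤ_[p])]
      refine tau_dvd τ (X' := (ρ ⟨x j, hxΓ⟩ : Matrix (Fin n) (Fin n) ℤ_[p]) ^ l) ?_ ?_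
      · intro a b
        exact pow_congr (fun a b => by
          have := h3 a b
          rw [← neg_sub]
          exact (Ideal.neg_mem_iff _).2 this) l a b
      · rw [h1 l]
        exact dvd_zero _
    have h3 : (p : ℤ_[p]) ^ (j / 2) ∣ τ (ρ ⟨g j, hgΓ⟩ : Matrix (Fin n) (Fin n) ℤ_[p]) := by
      rw [hY] at h2 ⊢
      have h4 := tau_approx τ Y (N j) j (hN j) h2 1
      rwa [pow_one] at h4
    refine tau_dvd τ (X' := (ρ ⟨g j, hgΓ⟩ : Matrix (Fin n) (Fin n) ℤ_[p])) ?_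
      ((pow_dvd_pow _ (by omega)).trans h3)
    apply Kj_diff ρ huΓ hgΓ
    have h4 : u * (g j)⁻¹ ∈ Kj ρ (maximalIdeal ℤ_[p] ^ k) := by
      have h5 := hlek hgj
      -- conjugation
      obtain ⟨h6, h7⟩ := (mem_Kj ρ).1 h5
      rw [mem_Kj]
      refine ⟨Γ.mul_mem huΓ (Γ.inv_mem hgΓ), ?_⟩
      have h8 : ((ρ ⟨u * (g j)⁻¹, Γ.mul_mem huΓ (Γ.inv_mem hgΓ)⟩ : Matrix (Fin n) (Fin n) ℤ_[p])) - 1
          = -((ρ ⟨u, huΓ⟩ : Matrix (Fin n) (Fin n) ℤ_[p]) *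
            ((ρ ⟨u⁻¹ * g j, h6⟩ : Matrix (Fin n) (Fin n) ℤ_[p]) - 1) *
            ((ρ ⟨g j, hgΓ⟩)⁻¹ : GL (Fin n) ℤ_[p])) := by
        have e1 : (⟨u⁻¹ * g j, h6⟩ : Γ) = ⟨u, huΓ⟩⁻¹ * ⟨g j, hgΓ⟩ := rfl
        have e2 : (⟨u * (g j)⁻¹, Γ.mul_mem huΓ (Γ.inv_mem hgΓ)⟩ : Γ) = ⟨u, huΓ⟩ * ⟨g j, hgΓ⟩⁻¹ := rfl
        rw [e1, e2, mul_sub, mul_one, ← Units.val_mul, ← map_mul, mul_inv_cancel_left, sub_mul,
          Units.mul_inv, map_mul, map_inv, Units.val_mul, neg_sub]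
      intro a b
      rw [h8, Matrix.neg_apply]
      refine (Ideal.neg_mem_iff _).2 ?_
      rw [Matrix.mul_apply]
      refine Ideal.sum_mem _ fun c _ => Ideal.mul_mem_right _ _ ?_
      rw [Matrix.mul_apply]
      exact Ideal.sum_mem _ fun d _ => Ideal.mul_mem_left _ _ (h7 d c)
    exact h4
  by_contra hne
  obtain ⟨k, hk⟩ := PadicInt.exists_pow_neg_lt p (norm_pos_iff.2 hne)
  have h1 := (PadicInt.norm_le_pow_iff_mem_span_pow _ k).2 (Ideal.mem_span_singleton.2 (key k))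
  exact absurd hk (not_lt.2 h1)

end

end Pool.Agent.T9h32.FP
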