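import Pool.Agent.T9h32.FP.Frob
import Pool.Agent.T9h32.FP.Tau
import Pool.Agent.T9h32.FP.Det

/-! Pairs of representations. -/

set_option autoImplicit false

open Matrix IsLocalRing Finset NumberField Topology Polynomial

namespace Pool.Agent.T9h32.FP

attribute [local instance 10] DivisionRing.toRatAlgebra

open Pool.Agent.Y800 Pool.Agent.Y802.TS

section

variable {Γ : Subgroup GQ} {p : ℕ} [hp : Fact p.Prime] {n : ℕ} {S : Finset ℕ}

theorem tau_mem (τ : Matrix (Fin n) (Fin n) ℤ_[p] →ₗ[ℤ_[p]] ℤ_[p]) (g : Γ) (E : ℕ) :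
    (fun ρ : Rep Γ p n S => τ ((ρ.rho g : Matrix (Fin n) (Fin n) ℤ_[p]) ^ E)) ∈ Reg Γ p n S := by
  let U : Matrix (Fin n) (Fin n) (Reg Γ p n S) := fun a b =>
    ⟨fun ρ => (ρ.rho g : Matrix (Fin n) (Fin n) ℤ_[p]) a b,
      Subring.subset_closure (Or.inr ⟨g, a, b, rfl⟩)⟩
  have h1 : ∀ (ρ : Rep Γ p n S) (a b : Fin n), ((U ^ E) a b : Rep Γ p n S → ℤ_[p]) ρ =
      ((ρ.rho g : Matrix (Fin n) (Fin n) ℤ_[p]) ^ E) a b := by
    intro ρ a b
    let ev : Reg Γ p n S →+* ℤ_[p] := (Pi.evalRingHom (fun _ => ℤ_[p]) ρ).comp (Reg Γ p n S).subtype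
    have h2 : ev.mapMatrix (U ^ E) = (ρ.rho g : Matrix (Fin n) (Fin n) ℤ_[p]) ^ E := by
      rw [map_pow]
      rfl
    rw [← h2]
    rfl
  have h2 : (fun ρ : Rep Γ p n S => τ ((ρ.rho g : Matrix (Fin n) (Fin n) ℤ_[p]) ^ E)) =
      ∑ a : Fin n, ∑ b : Fin n, ((U ^ E) a b : Rep Γ p n S → ℤ_[p]) *
        (fun _ => τ (Matrix.single a b 1)) := by
    ext1 ρ
    rw [Finset.sum_apply]
    conv_lhs => rw [Matrix.matrix_eq_sum_single ((ρ.rho g : Matrix (Fin n) (Fin n) ℤ_[p]) ^ E)]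
    rw [map_sum]
    refine Finset.sum_congr rfl fun a _ => ?_
    rw [map_sum, Finset.sum_apply]
    refine Finset.sum_congr rfl fun b _ => ?_
    have h3 : Matrix.single a b (((ρ.rho g : Matrix (Fin n) (Fin n) ℤ_[p]) ^ E) a b) =
        (((ρ.rho g : Matrix (Fin n) (Fin n) ℤ_[p]) ^ E) a b) • Matrix.single a b (1 : ℤ_[p]) := by
      rw [Matrix.smul_single, smul_eq_mul, mul_one]
    rw [h3, map_smul, smul_eq_mul, Pi.mul_apply, h1]
  rw [h2]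
  refine Subring.sum_mem _ fun a _ => Subring.sum_mem _ fun b _ => Subring.mul_mem _ ?_ ?_
  · exact ((U ^ E) a b).2
  · exact Subring.subset_closure (Or.inl ⟨_, rfl⟩)

/-- conditions given by a linear functional stabilize -/
theorem stab_tau (hΓ : IsOpen (Γ : Set GQ))
    (hΓS : ∀ q : ℕ, q.Prime → q ∉ S → ∀ P : Ideal ZBar, P.IsMaximal → (q : ZBar) ∈ P →
      ∀ τ : GQ, InInertia P τ → τ ∈ Γ) (T : ℕ → ℕ)
    (τ : Matrix (Fin n) (Fin n) ℤ_[p] →ₗ[ℤ_[p]] ℤ_[p]) (i0 : ℕ) :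
    ∃ m : ℕ, ∀ ρ : Rep Γ p n S,
      (∀ i, i0 ≤ i → i < m → T i ∉ S → T i ≠ p → ∀ P : Ideal ZBar, P.IsMaximal → (T i : ZBar) ∈ P →
        ∀ σ : GQ, ∀ h : σ ∈ Γ, IsGeomFrob (T i) P σ → ∃ a : ℕ, a ≠ 0 ∧
          ∀ l : ℕ, τ ((ρ.rho ⟨σ, h⟩ : Matrix (Fin n) (Fin n) ℤ_[p]) ^ (a * l)) = 0) →
      ∀ i, i0 ≤ i → T i ∉ S → T i ≠ p → ∀ P : Ideal ZBar, P.IsMaximal → (T i : ZBar) ∈ P →
        ∀ σ : GQ, ∀ h : σ ∈ Γ, IsGeomFrob (T i) P σ →
          ∀ l : ℕ, τ ((ρ.rho ⟨σ, h⟩ : Matrix (Fin n) (Fin n) ℤ_[p]) ^ (ex p n * l)) = 0 := by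
  obtain ⟨m, hm⟩ := fam_stab (p := p) (n := n) hΓ hΓS
    (fun i => {φ | i0 ≤ i ∧ T i ∉ S ∧ T i ≠ p ∧ ∃ (P : Ideal ZBar) (σ : GQ) (h : σ ∈ Γ)
      (l : ℕ), P.IsMaximal ∧ (T i : ZBar) ∈ P ∧ IsGeomFrob (T i) P σ ∧
      φ = fun ρ : Rep Γ p n S =>
        τ ((ρ.rho ⟨σ, h⟩ : Matrix (Fin n) (Fin n) ℤ_[p]) ^ (ex p n * l))}) (by
      rintro i _ ⟨_, _, _, P, σ, h, l, _, _, _, rfl⟩
      exact tau_mem _ _ _)
  refine ⟨m, fun ρ hρ i hi0 hiS hip P hP hTP σ h hσ l => ?_⟩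
  refine hm ρ ?_ i _ ⟨hi0, hiS, hip, P, σ, h, l, hP, hTP, hσ, rfl⟩
  rintro i hi _ ⟨hi0, hiS, hip, P, σ, h, l, hP, hTP, hσ, rfl⟩
  obtain ⟨a, ha, h1⟩ := hρ i hi0 hi hiS hip P hP hTP σ h hσ
  obtain ⟨Y, hY⟩ := eq_one_add (X := (ρ.rho ⟨σ, h⟩ : Matrix (Fin n) (Fin n) ℤ_[p]) ^ ex p n)
    (fun a b => ex_mat p n (ρ.rho ⟨σ, h⟩) a b)
  change τ ((ρ.rho ⟨σ, h⟩ : Matrix (Fin n) (Fin n) ℤ_[p]) ^ (ex p n * l)) = 0
  rw [pow_mul, hY]
  apply tau_zero τ Y a (Nat.pos_of_ne_zero ha)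
  intro l'
  rw [← hY, ← pow_mul]
  have e1 : ex p n * (a * l') = a * (ex p n * l') := by ring
  rw [e1]
  exact h1 _

/-! block diagonal representations -/

/-- the block diagonal matrix -/
noncomputable def bd (X Y : Matrix (Fin n) (Fin n) ℤ_[p]) : Matrix (Fin (n + n)) (Fin (n + n)) ℤ_[p] :=
  Matrix.reindex finSumFinEquiv finSumFinEquiv (Matrix.fromBlocks X 0 0 Y)

theorem bd_mul (X Y X' Y' : Matrix (Fin n) (Fin n) ℤ_[p]) :
    bd (X * X') (Y * Y') = bd X Y * bd X' Y' := by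
  unfold bd
  rw [Matrix.reindex_apply, Matrix.reindex_apply, Matrix.reindex_apply, Matrix.submatrix_mul_equiv,
    Matrix.fromBlocks_multiply]
  simp

theorem bd_one : bd (1 : Matrix (Fin n) (Fin n) ℤ_[p]) 1 = 1 := by
  unfold bd
  rw [Matrix.reindex_apply, Matrix.fromBlocks_one, Matrix.submatrix_one_equiv]

/-- the difference of the traces of the blocks -/
noncomputable def dtr (p : ℕ) [Fact p.Prime] (n : ℕ) :
    Matrix (Fin (n + n)) (Fin (n + n)) ℤ_[p] →ₗ[ℤ_[p]] ℤ_[p] :=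
  { toFun := fun X => ∑ a : Fin n, (X (Fin.castAdd n a) (Fin.castAdd n a) -
      X (Fin.natAdd n a) (Fin.natAdd n a))
    map_add' := by
      intro X Y
      rw [← Finset.sum_add_distrib]
      refine Finset.sum_congr rfl fun a _ => ?_
      rw [Matrix.add_apply, Matrix.add_apply]
      ring
    map_smul' := by
      intro c X
      rw [RingHom.id_apply, smul_eq_mul, Finset.mul_sum]
      refine Finset.sum_congr rfl fun a _ => ?_
      rw [Matrix.smul_apply, Matrix.smul_apply, smul_eq_mul, smul_eq_mul]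
      ring }

theorem dtr_bd (X Y : Matrix (Fin n) (Fin n) ℤ_[p]) : dtr p n (bd X Y) = X.trace - Y.trace := by
  change ∑ a : Fin n, (bd X Y (Fin.castAdd n a) (Fin.castAdd n a) -
      bd X Y (Fin.natAdd n a) (Fin.natAdd n a)) = _
  rw [Finset.sum_sub_distrib]
  simp only [bd, Matrix.reindex_apply, Matrix.submatrix_apply, finSumFinEquiv_symm_apply_castAdd,
    finSumFinEquiv_symm_apply_natAdd, Matrix.fromBlocks_apply₁₁, Matrix.fromBlocks_apply₂₂]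
  rfl

/-- the direct sum of two representations -/
noncomputable def dsum (ρ ρ' : Γ →* GL (Fin n) ℤ_[p]) : Γ →* GL (Fin (n + n)) ℤ_[p] :=
  MonoidHom.toHomUnits
    { toFun := fun g => bd (ρ g : Matrix (Fin n) (Fin n) ℤ_[p]) (ρ' g)
      map_one' := by rw [map_one, map_one, Units.val_one, bd_one]
      map_mul' := fun g h => by
        rw [map_mul, map_mul, Units.val_mul, Units.val_mul, bd_mul] }

theorem dsum_val (ρ ρ' : Γ →* GL (Fin n) ℤ_[p]) (g : Γ) :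
    (dsum ρ ρ' g : Matrix (Fin (n + n)) (Fin (n + n)) ℤ_[p]) =
      bd (ρ g : Matrix (Fin n) (Fin n) ℤ_[p]) (ρ' g) := rfl

theorem dsum_pow (ρ ρ' : Γ →* GL (Fin n) ℤ_[p]) (g : Γ) (k : ℕ) :
    dtr p n ((dsum ρ ρ' g : Matrix (Fin (n + n)) (Fin (n + n)) ℤ_[p]) ^ k) =
      ((ρ g : Matrix (Fin n) (Fin n) ℤ_[p]) ^ k).trace -
      ((ρ' g : Matrix (Fin n) (Fin n) ℤ_[p]) ^ k).trace := by
  rw [← Units.val_pow_eq_pow_val, ← map_pow, dsum_val, dtr_bd, map_pow, map_pow,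
    Units.val_pow_eq_pow_val, Units.val_pow_eq_pow_val]

theorem mem_bd {J : Ideal ℤ_[p]} {X Y : Matrix (Fin n) (Fin n) ℤ_[p]}
    (hX : ∀ a b, (X - 1) a b ∈ J) (hY : ∀ a b, (Y - 1) a b ∈ J) :
    ∀ a b, (bd X Y - 1) a b ∈ J := by
  have h1 : bd X Y - 1 = bd (X - 1) (Y - 1) := by
    rw [← bd_one]
    unfold bd
    rw [Matrix.reindex_apply, Matrix.reindex_apply, Matrix.reindex_apply]
    ext a b
    rw [Matrix.sub_apply, Matrix.submatrix_apply, Matrix.submatrix_apply, Matrix.submatrix_apply]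
    rcases finSumFinEquiv.symm a with a' | a' <;> rcases finSumFinEquiv.symm b with b' | b'
    · rfl
    · exact sub_zero _
    · exact sub_zero _
    · rfl
  rw [h1]
  intro a b
  unfold bd
  rw [Matrix.reindex_apply, Matrix.submatrix_apply]
  rcases finSumFinEquiv.symm a with a' | a' <;> rcases finSumFinEquiv.symm b with b' | b'
  · exact hX a' b'
  · exact J.zero_mem
  · exact J.zero_mem
  · exact hY a' b'

/-- the direct sum -/
noncomputable def Rsum (R R' : Rep Γ p n S) : Rep Γ p (n + n) S where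
  rho := dsum R.rho R'.rho
  op := by
    intro i
    have h1 := (R.op i).inter (R'.op i)
    have h2 : Kj R.rho (maximalIdeal ℤ_[p] ^ i) ⊓ Kj R'.rho (maximalIdeal ℤ_[p] ^ i) ≤
        Kj (dsum R.rho R'.rho) (maximalIdeal ℤ_[p] ^ i) := by
      rintro g ⟨hg1, hg2⟩
      obtain ⟨h3, h4⟩ := (mem_Kj _).1 hg1
      obtain ⟨_, h5⟩ := (mem_Kj _).1 hg2
      exact (mem_Kj _).2 ⟨h3, mem_bd h4 h5⟩
    exact Subgroup.isOpen_mono h2 h1
  unr := by
    intro q hq hqS P hP hqP τ hτ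
    obtain ⟨h1, h2⟩ := R.unr q hq hqS P hP hqP τ hτ
    obtain ⟨_, h3⟩ := R'.unr q hq hqS P hP hqP τ hτ
    refine ⟨h1, ?_⟩
    apply Units.ext
    rw [dsum_val, h2, h3, Units.val_one, Units.val_one, bd_one]

end

end Pool.Agent.T9h32.FP
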