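import Mathlib

/-! Representations with equal traces have a common constituent. -/

set_option autoImplicit false

open Polynomial Matrix

namespace Pool.Agent.T9h32.FP

section

variable {F : Type*} [Field F] {n : ℕ}

theorem exists_idem (x : Matrix (Fin n) (Fin n) F) (s : Fin n → F) (hs : s ≠ 0)
    (hx : x *ᵥ s = s) : ∃ q : F[X], (x * aeval x q) * (x * aeval x q) = x * aeval x q ∧
      x * aeval x q ≠ 0 := by
  have hne : x.charpoly ≠ 0 := x.charpoly_monic.ne_zero
  obtain ⟨h, hh1, hh2⟩ := Polynomial.exists_eq_pow_rootMultiplicity_mul_and_not_dvd _ hne (0 : F)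
  rw [C_0, sub_zero] at hh1 hh2
  set k := x.charpoly.rootMultiplicity 0
  have hcop : IsCoprime (X ^ (k + 1) : F[X]) h :=
    ((Polynomial.irreducible_X.coprime_iff_not_dvd).2 hh2).pow_left
  obtain ⟨a, b, hab⟩ := hcop
  have hchi : (aeval x) (X ^ k * h) = 0 := by
    rw [← hh1, Matrix.aeval_self_charpoly]
  have e1 : x * aeval x (a * X ^ k) = aeval x (a * X ^ (k + 1)) := by
    have e2 : a * X ^ (k + 1) = X * (a * X ^ k) := by ring
    rw [e2, map_mul (aeval x) X, aeval_X]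
  have e3 : aeval x (a * X ^ (k + 1)) = 1 - aeval x (b * h) := by
    rw [eq_sub_iff_add_eq, ← map_add, hab, map_one]
  refine ⟨a * X ^ k, ?_, ?_⟩
  · rw [e1]
    have e4 : aeval x (a * X ^ (k + 1)) * aeval x (b * h) = 0 := by
      have e5 : a * X ^ (k + 1) * (b * h) = (a * b * X) * (X ^ k * h) := by ring
      rw [← map_mul, e5, map_mul, hchi, mul_zero]
    calc aeval x (a * X ^ (k + 1)) * aeval x (a * X ^ (k + 1))
        = aeval x (a * X ^ (k + 1)) * (1 - aeval x (b * h)) := by rw [← e3]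
      _ = _ := by rw [mul_sub, mul_one, e4, sub_zero]
  · rw [e1]
    intro h0
    rw [h0] at e3
    have e6 : x ^ k = 0 := by
      have e7 : aeval x (X ^ k * (b * h)) = 0 := by
        have e5 : X ^ k * (b * h) = b * (X ^ k * h) := by ring
        rw [e5, map_mul, hchi, mul_zero]
      rw [map_mul, map_pow, aeval_X, ← sub_eq_zero.1 e3.symm, mul_one] at e7
      exact e7
    have e8 : ∀ j : ℕ, x ^ j *ᵥ s = s := by
      intro j
      induction j with
      | zero => rw [pow_zero, Matrix.one_mulVec]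
      | succ j ih => rw [pow_succ, ← Matrix.mulVec_mulVec, hx, ih]
    apply hs
    rw [← e8 k, e6, Matrix.zero_mulVec]

theorem trace_idem [CharZero F] (e : Matrix (Fin n) (Fin n) F) (he : e * e = e) (hne : e ≠ 0) :
    e.trace ≠ 0 := by
  let f := Matrix.toLin' e
  have hf : IsIdempotentElem f := by
    change f * f = f
    have := Matrix.toLin'_mul e e
    rw [he] at this
    exact this.symm
  have hproj := LinearMap.IsIdempotentElem.isProj_range f hf
  have h1 := hproj.trace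
  rw [Matrix.trace_toLin'_eq] at h1
  rw [h1, Nat.cast_ne_zero]
  intro h2
  have h3 : LinearMap.range f = ⊥ := Submodule.finrank_eq_zero.1 h2
  apply hne
  have h4 : f = 0 := LinearMap.range_eq_bot.1 h3
  exact (Matrix.toLin'.map_eq_zero_iff).1 h4

theorem mul_aeval_mem (L : Submodule F (Matrix (Fin n) (Fin n) F))
    (hmul : ∀ x ∈ L, ∀ y ∈ L, x * y ∈ L) (x : Matrix (Fin n) (Fin n) F) (hx : x ∈ L) (q : F[X]) :
    x * aeval x q ∈ L := by
  induction q using Polynomial.induction_on with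
  | C a =>
    rw [aeval_C, Algebra.algebraMap_eq_smul_one, mul_smul_comm, mul_one]
    exact L.smul_mem a hx
  | add p q hp hq => rw [map_add, mul_add]; exact L.add_mem hp hq
  | monomial j a h =>
    have h1 : x * aeval x (C a * X ^ (j + 1)) = (x * aeval x (C a * X ^ j)) * x := by
      rw [mul_assoc]
      congr 1
      rw [pow_succ, ← mul_assoc, map_mul (aeval x) (C a * X ^ j) X, aeval_X]
    rw [h1]
    exact hmul _ h _ hx

theorem common_zero [CharZero F] (hn : 0 < n) (L : Submodule F (Matrix (Fin n) (Fin n) F))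
    (hmul : ∀ x ∈ L, ∀ y ∈ L, x * y ∈ L) (htr : ∀ x ∈ L, x.trace = 0) :
    ∃ c : Fin n → F, c ≠ 0 ∧ ∀ x ∈ L, x *ᵥ c = 0 := by
  have : Nonempty (Fin n) := ⟨⟨0, hn⟩⟩
  obtain ⟨S, ⟨hS1, hS2⟩, hmin⟩ := (IsWellFounded.wf : WellFounded
    ((· < ·) : Submodule F (Fin n → F) → Submodule F (Fin n → F) → Prop)).has_min
    {S | S ≠ ⊥ ∧ ∀ x ∈ L, ∀ v ∈ S, x *ᵥ v ∈ S} ⟨⊤, top_ne_bot, fun _ _ _ _ => trivial⟩
  by_cases hex : ∃ s ∈ S, ∃ x ∈ L, x *ᵥ s ≠ 0
  · exfalso
    obtain ⟨s, hs, x0, hx0, hne⟩ := hex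
    let ev : Matrix (Fin n) (Fin n) F →ₗ[F] (Fin n → F) :=
      { toFun := fun x => x *ᵥ s
        map_add' := fun x y => Matrix.add_mulVec x y s
        map_smul' := fun a x => Matrix.smul_mulVec a x s }
    have h1 : L.map ev ≤ S := by
      rintro _ ⟨x, hx, rfl⟩
      exact hS2 x hx s hs
    have h2 : L.map ev ≠ ⊥ := by
      intro h0
      apply hne
      have h3 : ev x0 ∈ L.map ev := ⟨x0, hx0, rfl⟩
      rw [h0, Submodule.mem_bot] at h3
      exact h3
    have h3 : L.map ev = S := by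
      rcases eq_or_lt_of_le h1 with h4 | h4
      · exact h4
      · refine absurd h4 (hmin _ ⟨h2, ?_⟩)
        rintro y hy _ ⟨x, hx, rfl⟩
        refine ⟨y * x, hmul y hy x hx, ?_⟩
        change (y * x) *ᵥ s = y *ᵥ (x *ᵥ s)
        rw [Matrix.mulVec_mulVec]
    obtain ⟨x, hx, hxs⟩ : ∃ x ∈ L, x *ᵥ s = s := by
      have h4 : s ∈ L.map ev := by rw [h3]; exact hs
      obtain ⟨x, hx, h5⟩ := h4
      exact ⟨x, hx, h5⟩
    have hs0 : s ≠ 0 := by
      rintro rfl
      exact hne (Matrix.mulVec_zero _)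
    obtain ⟨q, h4, h5⟩ := exists_idem x s hs0 hxs
    exact trace_idem _ h4 h5 (htr _ (mul_aeval_mem L hmul x hx q))
  · push Not at hex
    obtain ⟨s, hs, hs0⟩ := Submodule.exists_mem_ne_zero_of_ne_bot hS1
    exact ⟨s, hs0, fun x hx => hex s hs x hx⟩

/-- **A common constituent.** -/
theorem common_const [CharZero F] {G : Type*} [Group G] {m : ℕ} (hn : 0 < n)
    (ρ : G →* GL (Fin n) F) (ρ' : G →* GL (Fin m) F)
    (h : ∀ g, (ρ g : Matrix (Fin n) (Fin n) F).trace = (ρ' g : Matrix (Fin m) (Fin m) F).trace) :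
    ∃ (W : Submodule F (Fin m → F)) (f : (Fin m → F) →ₗ[F] (Fin n → F)),
      (∀ g, ∀ w ∈ W, (ρ' g : Matrix (Fin m) (Fin m) F) *ᵥ w ∈ W ∧
        f ((ρ' g : Matrix (Fin m) (Fin m) F) *ᵥ w) = (ρ g : Matrix (Fin n) (Fin n) F) *ᵥ f w) ∧
      ∃ w ∈ W, f w ≠ 0 := by
  classical
  let M := Matrix (Fin n) (Fin n) F × Matrix (Fin m) (Fin m) F
  let A : Submodule F M := Submodule.span F (Set.range fun g : G =>
    ((ρ g : Matrix (Fin n) (Fin n) F), (ρ' g : Matrix (Fin m) (Fin m) F)))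
  have hgen : ∀ g : G, (((ρ g : Matrix (Fin n) (Fin n) F), (ρ' g : Matrix (Fin m) (Fin m) F)) : M) ∈ A :=
    fun g => Submodule.subset_span ⟨g, rfl⟩
  have hA1 : ((1 : M)) ∈ A := by
    have := hgen 1
    rwa [map_one, map_one] at this
  have hAmul : ∀ a ∈ A, ∀ b ∈ A, a * b ∈ A := by
    intro a ha b hb
    induction ha using Submodule.span_induction with
    | mem a ha =>
      obtain ⟨g, rfl⟩ := ha
      induction hb using Submodule.span_induction with
      | mem b hb =>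
        obtain ⟨g', rfl⟩ := hb
        have h1 := hgen (g * g')
        rw [map_mul, map_mul, Units.val_mul, Units.val_mul] at h1
        exact h1
      | zero => rw [mul_zero]; exact A.zero_mem
      | add x y _ _ hx hy => rw [mul_add]; exact A.add_mem hx hy
      | smul c x _ hx => rw [mul_smul_comm]; exact A.smul_mem c hx
    | zero => rw [zero_mul]; exact A.zero_mem
    | add x y _ _ hx hy => rw [add_mul]; exact A.add_mem hx hy
    | smul c x _ hx => rw [smul_mul_assoc]; exact A.smul_mem c hx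
  have htr : ∀ a ∈ A, a.1.trace = a.2.trace := by
    intro a ha
    induction ha using Submodule.span_induction with
    | mem a ha =>
      obtain ⟨g, rfl⟩ := ha
      exact h g
    | zero => rw [Prod.fst_zero, Prod.snd_zero, Matrix.trace_zero, Matrix.trace_zero]
    | add x y _ _ hx hy =>
      rw [Prod.fst_add, Prod.snd_add, Matrix.trace_add, Matrix.trace_add, hx, hy]
    | smul c x _ hx => rw [Prod.smul_fst, Prod.smul_snd, Matrix.trace_smul, Matrix.trace_smul, hx]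
  let L : Submodule F (Matrix (Fin n) (Fin n) F) :=
    A.comap (LinearMap.inl F (Matrix (Fin n) (Fin n) F) (Matrix (Fin m) (Fin m) F))
  have hL : ∀ x, x ∈ L ↔ ((x, 0) : M) ∈ A := fun x => Iff.rfl
  obtain ⟨c, hc, hLc⟩ := common_zero hn L (by
    intro x hx y hy
    rw [hL] at hx hy ⊢
    have h1 := hAmul _ hx _ hy
    rw [Prod.mk_mul_mk, mul_zero] at h1
    exact h1) (by
    intro x hx
    have h1 := htr _ ((hL x).1 hx)
    rw [h1]
    exact Matrix.trace_zero _ _)
  -- the filtration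
  let P : ℕ → Prop := fun k => ∃ a ∈ A, (∀ j : Fin m, k ≤ j → a.2 *ᵥ Pi.single j 1 = 0) ∧
    a.1 *ᵥ c ≠ 0
  have hPm : P m := by
    refine ⟨1, hA1, fun j hj => absurd j.2 (not_lt.2 hj), ?_⟩
    rw [Prod.fst_one, Matrix.one_mulVec]
    exact hc
  have hP0 : ¬ P 0 := by
    rintro ⟨a, ha, h1, h2⟩
    apply h2
    have h3 : a.2 = 0 := by
      ext i j
      have h4 := congrFun (h1 j (Nat.zero_le _)) i
      rw [Matrix.mulVec_single_one] at h4
      exact h4
    apply hLc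
    rw [hL]
    have h5 : a = (a.1, 0) := by rw [← h3]
    rw [← h5]
    exact ha
  let k := Nat.find ⟨m, hPm⟩
  have hk : P k := Nat.find_spec ⟨m, hPm⟩
  have hkm : k ≤ m := Nat.find_min' ⟨m, hPm⟩ hPm
  have hk0 : k ≠ 0 := fun h0 => hP0 (h0 ▸ hk)
  have hk1 : ¬ P (k - 1) := Nat.find_min ⟨m, hPm⟩ (Nat.sub_lt (Nat.pos_of_ne_zero hk0) Nat.one_pos)
  let j0 : Fin m := ⟨k - 1, by omega⟩
  let N : Submodule F M :=
    { carrier := {a | a ∈ A ∧ ∀ j : Fin m, k ≤ j → a.2 *ᵥ Pi.single j 1 = 0}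
      add_mem' := by
        rintro a b ⟨ha1, ha2⟩ ⟨hb1, hb2⟩
        refine ⟨A.add_mem ha1 hb1, fun j hj => ?_⟩
        rw [Prod.snd_add, Matrix.add_mulVec, ha2 j hj, hb2 j hj, add_zero]
      zero_mem' := ⟨A.zero_mem, fun j _ => by rw [Prod.snd_zero, Matrix.zero_mulVec]⟩
      smul_mem' := by
        rintro c a ⟨ha1, ha2⟩
        refine ⟨A.smul_mem c ha1, fun j hj => ?_⟩
        rw [Prod.smul_snd, Matrix.smul_mulVec, ha2 j hj, smul_zero] }
  let ev : N →ₗ[F] (Fin m → F) :=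
    { toFun := fun a => a.1.2 *ᵥ Pi.single j0 1
      map_add' := fun x y => Matrix.add_mulVec _ _ _
      map_smul' := fun a x => Matrix.smul_mulVec _ _ _ }
  let ψ : N →ₗ[F] (Fin n → F) :=
    { toFun := fun a => a.1.1 *ᵥ c
      map_add' := fun x y => Matrix.add_mulVec _ _ _
      map_smul' := fun a x => Matrix.smul_mulVec _ _ _ }
  have hker : ∀ a : N, ev a = 0 → ψ a = 0 := by
    intro a ha
    by_contra hne
    apply hk1
    refine ⟨a.1, a.2.1, fun j hj => ?_, hne⟩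
    rcases eq_or_lt_of_le hj with h1 | h1
    · have h2 : j = j0 := Fin.ext h1.symm
      rw [h2]
      exact ha
    · exact a.2.2 j (by omega)
  obtain ⟨s, hs⟩ := ev.rangeRestrict.exists_rightInverse_of_surjective ev.range_rangeRestrict
  obtain ⟨f, hf⟩ := (ψ.comp s).exists_extend
  have hfev : ∀ a : N, f (ev a) = ψ a := by
    intro a
    have h1 := LinearMap.congr_fun hf ⟨ev a, ⟨a, rfl⟩⟩
    have h2 : f (ev a) = ψ (s ⟨ev a, ⟨a, rfl⟩⟩) := h1
    rw [h2, ← sub_eq_zero, ← map_sub]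
    apply hker
    rw [map_sub, sub_eq_zero]
    have h3 := LinearMap.congr_fun hs ⟨ev a, ⟨a, rfl⟩⟩
    exact congrArg Subtype.val h3
  refine ⟨LinearMap.range ev, f, ?_, ?_⟩
  · rintro g _ ⟨a, rfl⟩
    let b : N := ⟨((ρ g : Matrix (Fin n) (Fin n) F), (ρ' g : Matrix (Fin m) (Fin m) F)) * a.1,
      hAmul _ (hgen g) _ a.2.1, fun j hj => by
        change ((ρ' g : Matrix (Fin m) (Fin m) F) * a.1.2) *ᵥ Pi.single j 1 = 0
        rw [← Matrix.mulVec_mulVec, a.2.2 j hj, Matrix.mulVec_zero]⟩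
    have hb1 : ev b = (ρ' g : Matrix (Fin m) (Fin m) F) *ᵥ ev a := by
      change ((ρ' g : Matrix (Fin m) (Fin m) F) * a.1.2) *ᵥ Pi.single j0 1 = _
      rw [← Matrix.mulVec_mulVec]
      rfl
    have hb2 : ψ b = (ρ g : Matrix (Fin n) (Fin n) F) *ᵥ ψ a := by
      change ((ρ g : Matrix (Fin n) (Fin n) F) * a.1.1) *ᵥ c = _
      rw [← Matrix.mulVec_mulVec]
      rfl
    refine ⟨⟨b, hb1⟩, ?_⟩
    rw [← hb1, hfev, hfev, hb2]
  · obtain ⟨a, ha, h1, h2⟩ := hk
    refine ⟨ev ⟨a, ha, h1⟩, ⟨_, rfl⟩, ?_⟩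
    rw [hfev]
    exact h2

end

end Pool.Agent.T9h32.FP
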