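import Pool.Agent.T9h32.FP.Unif
import Pool.Agent.T9h32.FP.Blk
import Pool.Agent.T9h32.FP.Cons
import Pool.Agent.Y802.TS.Tower

/-! Comparison of representations. -/

set_option autoImplicit false

open Matrix IsLocalRing Finset NumberField Topology Polynomial Module

namespace Pool.Agent.T9h32.FP

attribute [local instance 10] DivisionRing.toRatAlgebra

open Pool.Agent.Y800 Pool.Agent.Y802.TS

theorem tr_inc {p : ℕ} [hp : Fact p.Prime] {n : ℕ} {X : GL (Fin n) ℤ_[p]} {Y P : GL (Fin n) ℚ_[p]}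
    (h : inc p n X = P * Y * P⁻¹) (k : ℕ) :
    ((((X : Matrix (Fin n) (Fin n) ℤ_[p]) ^ k).trace : ℤ_[p]) : ℚ_[p]) =
      ((Y : Matrix (Fin n) (Fin n) ℚ_[p]) ^ k).trace := by
  have h1 : ∀ Z : Matrix (Fin n) (Fin n) ℤ_[p], ((Z.trace : ℤ_[p]) : ℚ_[p]) =
      ((algebraMap ℤ_[p] ℚ_[p]).mapMatrix Z).trace := by
    intro Z
    change algebraMap ℤ_[p] ℚ_[p] Z.trace = _
    rw [Matrix.trace, map_sum]
    rfl
  have h2 : (algebraMap ℤ_[p] ℚ_[p]).mapMatrix ((X : Matrix (Fin n) (Fin n) ℤ_[p]) ^ k) =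
      (inc p n (X ^ k) : Matrix (Fin n) (Fin n) ℚ_[p]) := by
    rw [← Units.val_pow_eq_pow_val]
    rfl
  rw [h1, h2, map_pow, h, conj_pow, Units.val_mul, Units.val_mul, Matrix.trace_mul_comm, ← mul_assoc,
    Units.inv_mul, one_mul, Units.val_pow_eq_pow_val]

/-- the comparison theorem for one group, given a sparse sequence -/
theorem cmp_one {Γ : Subgroup GQ} {p : ℕ} [hp : Fact p.Prime] {n : ℕ} {S : Finset ℕ}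
    (hΓ : IsOpen (Γ : Set GQ))
    (hΓS : ∀ q : ℕ, q.Prime → q ∉ S → ∀ P : Ideal ZBar, P.IsMaximal → (q : ZBar) ∈ P →
      ∀ τ : GQ, InInertia P τ → τ ∈ Γ)
    (g : ℕ → GQ) (hg : ∀ U : Subgroup GQ, IsOpen (U : Set GQ) → ∀ (γ : GQ) (j0 : ℕ),
      ∃ j, j0 ≤ j ∧ γ⁻¹ * g j ∈ U)
    (N : ℕ → ℕ) (hN : ∀ j, 1 ≤ N j) (x : ℕ → GQ)
    (hx : ∀ j, x j * (g j ^ N j)⁻¹ ∈ Hj j (N j)) (T : ℕ → ℕ) (hTge : ∀ j, j < T j)
    (hx1 : ∀ j, ∃ P : Ideal ZBar, P.IsMaximal ∧ (T j : ZBar) ∈ P ∧ IsGeomFrob (T j) P (x j))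
    (i0 : ℕ) :
    ∃ m : ℕ, ∀ ρ ρ' : Γ →* GL (Fin n) ℚ_[p], Continuous ρ → Continuous ρ' →
      (∀ q : ℕ, q.Prime → q ∉ S → ∀ P : Ideal ZBar, P.IsMaximal → (q : ZBar) ∈ P →
        ∀ τ : GQ, ∀ h : τ ∈ Γ, InInertia P τ → ρ ⟨τ, h⟩ = 1) →
      (∀ q : ℕ, q.Prime → q ∉ S → ∀ P : Ideal ZBar, P.IsMaximal → (q : ZBar) ∈ P →
        ∀ τ : GQ, ∀ h : τ ∈ Γ, InInertia P τ → ρ' ⟨τ, h⟩ = 1) →
      (∀ i, i0 ≤ i → i < m → T i ∉ S → T i ≠ p → ∀ P : Ideal ZBar, P.IsMaximal → (T i : ZBar) ∈ P →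
        ∀ σ : GQ, ∀ h : σ ∈ Γ, IsGeomFrob (T i) P σ → ∃ a : ℕ, a ≠ 0 ∧
          ((ρ ⟨σ, h⟩ : Matrix (Fin n) (Fin n) ℚ_[p]) ^ a).charpoly =
          ((ρ' ⟨σ, h⟩ : Matrix (Fin n) (Fin n) ℚ_[p]) ^ a).charpoly) →
      ∃ U : Subgroup GQ, IsOpen (U : Set GQ) ∧ U ≤ Γ ∧ ∀ u ∈ U, ∀ h : u ∈ Γ,
        (ρ ⟨u, h⟩ : Matrix (Fin n) (Fin n) ℚ_[p]).trace =
          (ρ' ⟨u, h⟩ : Matrix (Fin n) (Fin n) ℚ_[p]).trace := by
  obtain ⟨m, hm⟩ := stab_tau (p := p) (n := n + n) hΓ hΓS T (dtr p n) i0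
  refine ⟨m, fun ρ ρ' hρ hρ' hS hS' hfin => ?_⟩
  obtain ⟨B, R, hR⟩ := exists_rep hΓ hΓS ρ hρ hS
  obtain ⟨B', R', hR'⟩ := exists_rep hΓ hΓS ρ' hρ' hS'
  have h1 := hm (Rsum R R') (by
    intro i hi0 him hiS hip P hP hTP σ h hσ
    obtain ⟨a, ha, h2⟩ := hfin i hi0 him hiS hip P hP hTP σ h hσ
    refine ⟨a, ha, fun l => ?_⟩
    change dtr p n ((dsum R.rho R'.rho ⟨σ, h⟩ : Matrix (Fin (n + n)) (Fin (n + n)) ℤ_[p]) ^ (a * l)) = 0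
    rw [dsum_pow, sub_eq_zero]
    apply Subtype.coe_injective
    change ((((R.rho ⟨σ, h⟩ : Matrix (Fin n) (Fin n) ℤ_[p]) ^ (a * l)).trace : ℤ_[p]) : ℚ_[p]) =
      ((((R'.rho ⟨σ, h⟩ : Matrix (Fin n) (Fin n) ℤ_[p]) ^ (a * l)).trace : ℤ_[p]) : ℚ_[p])
    rw [tr_inc (hR ⟨σ, h⟩), tr_inc (hR' ⟨σ, h⟩), pow_mul, pow_mul]
    exact trace_pow_eq h2 l)
  let i1 : ℕ := max i0 (max (S.sup id) p)
  have hi1 : ∀ i ≥ i1, i0 ≤ i ∧ T i ∉ S ∧ T i ≠ p := by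
    intro i hi
    have h1 : i0 ≤ i := le_trans (le_max_left _ _) hi
    have h2 : S.sup id ≤ i := le_trans (le_trans (le_max_left _ _) (le_max_right _ _)) hi
    have h3 : p ≤ i := le_trans (le_trans (le_max_right _ _) (le_max_right _ _)) hi
    have h4 := hTge i
    refine ⟨h1, fun h5 => ?_, by omega⟩
    have h6 : T i ≤ S.sup id := Finset.le_sup (f := id) h5
    omega
  have h2 := est_tau hΓ (Rsum R R').rho (Rsum R R').op S (Rsum R R').unr (dtr p n) g hg N hN x hx i1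
    (by
      intro j hj h
      obtain ⟨P, hP, hTP, hxP⟩ := hx1 j
      obtain ⟨h3, h4, h5⟩ := hi1 j hj
      exact ⟨ex p (n + n), ex_ne _ _, h1 j h3 h4 h5 P hP hTP (x j) h hxP⟩)
  refine ⟨Kj (Rsum R R').rho (maximalIdeal ℤ_[p] ^ 2), (Rsum R R').op 2,
    fun u hu => ((mem_Kj _).1 hu).1, fun u hu h => ?_⟩
  have h3 := h2 u hu h
  change dtr p n (dsum R.rho R'.rho ⟨u, h⟩ : Matrix (Fin (n + n)) (Fin (n + n)) ℤ_[p]) = 0 at h3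
  rw [← pow_one (dsum R.rho R'.rho ⟨u, h⟩ : Matrix (Fin (n + n)) (Fin (n + n)) ℤ_[p]), dsum_pow,
    sub_eq_zero] at h3
  have h4 := tr_inc (hR ⟨u, h⟩) 1
  have h5 := tr_inc (hR' ⟨u, h⟩) 1
  rw [h3, h5, pow_one, pow_one] at h4
  exact h4.symm

end Pool.Agent.T9h32.FP
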