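import Pool.Agent.Y802.TS.Eig

/-! Eigenvalues of matrices which satisfy a product equation. -/

set_option autoImplicit false

open Matrix Polynomial

namespace Pool.Agent.T9h32.FP

open Pool.Agent.Y802.TS

theorem Pr_mulVec {K : Type*} [Field K] {n : ℕ} (cs : List K) (X : Matrix (Fin n) (Fin n) K)
    (x : K) (v : Fin n → K) (h : X *ᵥ v = x • v) :
    Pr cs X *ᵥ v = (cs.map fun c => c * x - 1).prod • v := by
  induction cs with
  | nil => rw [Pr_nil, Matrix.one_mulVec, List.map_nil, List.prod_nil, one_smul]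
  | cons c cs ih =>
    have h1 : (c • X - 1) *ᵥ v = (c * x - 1) • v := by
      rw [Matrix.sub_mulVec, Matrix.one_mulVec, Matrix.smul_mulVec, h, smul_smul, sub_smul, one_smul]
    rw [Pr_cons, ← Matrix.mulVec_mulVec, ih, Matrix.mulVec_smul, h1, List.map_cons, List.prod_cons,
      smul_smul, mul_comm]

theorem eig_conv {k K : Type*} [Field k] [Field K] [Algebra k K] {n : ℕ}
    (A : Matrix (Fin n) (Fin n) k) (cs : List k) (E r : ℕ) (h : (Pr cs (A ^ E)) ^ r = 0) (z : K)
    (hz : aeval z A.charpoly = 0) : ∃ c ∈ cs, algebraMap k K c * z ^ E = 1 := by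
  let φ : k →+* K := algebraMap k K
  let B : Matrix (Fin n) (Fin n) K := φ.mapMatrix A
  have h1 : (Matrix.scalar (Fin n) z - B).det = 0 := by
    rw [← Matrix.eval_charpoly]
    have h2 : B.charpoly = A.charpoly.map φ := Matrix.charpoly_map A φ
    rw [h2, Polynomial.eval_map]
    exact hz
  obtain ⟨v, hv, hv2⟩ := Matrix.exists_mulVec_eq_zero_iff.2 h1
  have h2 : B *ᵥ v = z • v := by
    rw [Matrix.sub_mulVec, sub_eq_zero] at hv2
    rw [← hv2]
    ext i
    rw [Matrix.scalar_apply, Matrix.mulVec_diagonal]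
    rfl
  have h3 : ∀ j : ℕ, B ^ j *ᵥ v = z ^ j • v := by
    intro j
    induction j with
    | zero => rw [pow_zero, pow_zero, Matrix.one_mulVec, one_smul]
    | succ j ih => rw [pow_succ, ← Matrix.mulVec_mulVec, h2, Matrix.mulVec_smul, ih, smul_smul,
        pow_succ']
  have h4 := Pr_mulVec (cs.map φ) (B ^ E) (z ^ E) v (h3 E)
  have h5 : (Pr (cs.map φ) (B ^ E)) ^ r = 0 := by
    have h6 : φ.mapMatrix ((Pr cs (A ^ E)) ^ r) = φ.mapMatrix 0 := by rw [h]
    rw [map_pow, Pr_map, map_pow, map_zero] at h6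
    exact h6
  set c0 := ((cs.map φ).map fun c => c * z ^ E - 1).prod with hc0
  have h6 : ∀ j : ℕ, (Pr (cs.map φ) (B ^ E)) ^ j *ᵥ v = c0 ^ j • v := by
    intro j
    induction j with
    | zero => rw [pow_zero, pow_zero, Matrix.one_mulVec, one_smul]
    | succ j ih => rw [pow_succ, ← Matrix.mulVec_mulVec, h4, Matrix.mulVec_smul, ih, smul_smul,
        pow_succ']
  have h7 := h6 r
  rw [h5, Matrix.zero_mulVec] at h7
  have h8 : c0 = 0 := by
    rcases smul_eq_zero.1 h7.symm with h9 | h9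
    · exact eq_zero_of_pow_eq_zero h9
    · exact absurd h9 hv
  rw [hc0, List.prod_eq_zero_iff, List.map_map, List.mem_map] at h8
  obtain ⟨c, hc, h9⟩ := h8
  exact ⟨c, hc, sub_eq_zero.1 h9⟩

end Pool.Agent.T9h32.FP
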