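import Pool.Agent.T9h32.FP.Stab
import Pool.Agent.Y802.TS.Est

/-! A uniform exponent. -/

set_option autoImplicit false

open Matrix IsLocalRing Finset NumberField Topology

namespace Pool.Agent.T9h32.FP

attribute [local instance 10] DivisionRing.toRatAlgebra

open Pool.Agent.Y800 Pool.Agent.Y802.TS

section

variable (p : ℕ) [hp : Fact p.Prime] (n : ℕ)

/-- the exponent -/
noncomputable def ex : ℕ :=
  Nat.card (GL (Fin n) (ℤ_[p] ⧸ maximalIdeal ℤ_[p] ^ 2)) *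
    Nat.card (ℤ_[p] ⧸ maximalIdeal ℤ_[p] ^ 2)ˣ

theorem ex_ne : ex p n ≠ 0 := by
  have hfin := (card_quot p 2).1
  have h1 : Nat.card (GL (Fin n) (ℤ_[p] ⧸ maximalIdeal ℤ_[p] ^ 2)) ≠ 0 := Nat.card_pos.ne'
  have h2 : Nat.card (ℤ_[p] ⧸ maximalIdeal ℤ_[p] ^ 2)ˣ ≠ 0 := Nat.card_pos.ne'
  exact mul_ne_zero h1 h2

theorem ex_mat (X : GL (Fin n) ℤ_[p]) (a b : Fin n) :
    ((X : Matrix (Fin n) (Fin n) ℤ_[p]) ^ ex p n - 1) a b ∈ maximalIdeal ℤ_[p] ^ 2 := by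
  have hfin := (card_quot p 2).1
  let φ : GL (Fin n) ℤ_[p] →* GL (Fin n) (ℤ_[p] ⧸ maximalIdeal ℤ_[p] ^ 2) :=
    Matrix.GeneralLinearGroup.map (Ideal.Quotient.mk _)
  have h1 : φ (X ^ ex p n) = 1 := by
    rw [map_pow]
    unfold ex
    rw [pow_mul, pow_card_eq_one', one_pow]
  have h2 := congrArg (fun M : GL (Fin n) (ℤ_[p] ⧸ maximalIdeal ℤ_[p] ^ 2) =>
    (M : Matrix (Fin n) (Fin n) (ℤ_[p] ⧸ maximalIdeal ℤ_[p] ^ 2)) a b) h1
  change Ideal.Quotient.mk _ (((X ^ ex p n : GL (Fin n) ℤ_[p]) : Matrix (Fin n) (Fin n) ℤ_[p]) a b) =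
    (1 : Matrix (Fin n) (Fin n) (ℤ_[p] ⧸ maximalIdeal ℤ_[p] ^ 2)) a b at h2
  rw [← Ideal.Quotient.eq_zero_iff_mem, ← Units.val_pow_eq_pow_val, Matrix.sub_apply, map_sub, h2,
    Matrix.one_apply, Matrix.one_apply]
  split_ifs <;> simp

theorem ex_unit (u : ℤ_[p]ˣ) : (u : ℤ_[p]) ^ ex p n - 1 ∈ maximalIdeal ℤ_[p] ^ 2 := by
  have hfin := (card_quot p 2).1
  have h1 : Units.map (Ideal.Quotient.mk (maximalIdeal ℤ_[p] ^ 2) :
      ℤ_[p] →* ℤ_[p] ⧸ maximalIdeal ℤ_[p] ^ 2) (u ^ ex p n) = 1 := by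
    rw [map_pow]
    unfold ex
    rw [mul_comm, pow_mul, pow_card_eq_one', one_pow]
  have h2 := congrArg (fun z : (ℤ_[p] ⧸ maximalIdeal ℤ_[p] ^ 2)ˣ =>
    (z : ℤ_[p] ⧸ maximalIdeal ℤ_[p] ^ 2)) h1
  apply Ideal.Quotient.eq.1
  rw [map_one]
  exact h2

variable {p n}

/-- a divisibility -/
theorem pr_dvd {A : Type*} [CommRing A] (cs : List A) (X : Matrix (Fin n) (Fin n) A) (E : ℕ) :
    ∃ W : Matrix (Fin n) (Fin n) A, Commute W X ∧ Pr (cs.map fun c => c ^ E) (X ^ E) = Pr cs X * W := by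
  induction cs with
  | nil => exact ⟨1, Commute.one_left X, by simp [Pr_nil]⟩
  | cons c cs ih =>
    obtain ⟨W, hW, h1⟩ := ih
    let V : Matrix (Fin n) (Fin n) A := ∑ i ∈ range E, (c • X) ^ i
    have hV : Commute V X := by
      apply Commute.sum_left
      intro i _
      exact ((Commute.refl X).smul_left c).pow_left i
    have h2 : (c • X) ^ E - 1 = (c • X - 1) * V := (mul_geom_sum _ _).symm
    refine ⟨V * W, hV.mul_left hW, ?_⟩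
    rw [List.map_cons, Pr_cons, h1, ← smul_pow, h2, Pr_cons]
    have h3 : Commute (Pr cs X) V := comm_Pr hV.symm cs
    calc (c • X - 1) * V * (Pr cs X * W) = (c • X - 1) * (V * Pr cs X) * W := by
          simp only [mul_assoc]
      _ = (c • X - 1) * (Pr cs X * V) * W := by rw [h3.eq]
      _ = _ := by simp only [mul_assoc]

/-- **The uniform exponent.** -/
theorem ex_red (us : List ℤ_[p]ˣ) (X : GL (Fin n) ℤ_[p]) (a r : ℕ) (ha : a ≠ 0)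
    (h : (Pr (us.map fun u : ℤ_[p]ˣ => (u : ℤ_[p]) ^ a) ((X : Matrix (Fin n) (Fin n) ℤ_[p]) ^ a)) ^ r = 0) :
    (Pr (us.map fun u : ℤ_[p]ˣ => (u : ℤ_[p]) ^ ex p n) ((X : Matrix (Fin n) (Fin n) ℤ_[p]) ^ ex p n)) ^ r
      = 0 := by
  set Y : Matrix (Fin n) (Fin n) ℤ_[p] := (X : Matrix (Fin n) (Fin n) ℤ_[p]) with hY
  obtain ⟨W, hW, h1⟩ := pr_dvd (us.map fun u : ℤ_[p]ˣ => (u : ℤ_[p]) ^ a) (Y ^ a) (ex p n)
  have h2 : (Pr ((us.map fun u : ℤ_[p]ˣ => (u : ℤ_[p]) ^ ex p n).map fun c => c ^ a)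
      ((Y ^ ex p n) ^ a)) ^ r = 0 := by
    have e1 : ((us.map fun u : ℤ_[p]ˣ => (u : ℤ_[p]) ^ ex p n).map fun c => c ^ a) =
        ((us.map fun u : ℤ_[p]ˣ => (u : ℤ_[p]) ^ a).map fun c => c ^ ex p n) := by
      rw [List.map_map, List.map_map]
      apply List.map_congr_left
      intro u _
      exact pow_right_comm _ _ _
    have e2 : (Y ^ ex p n) ^ a = (Y ^ a) ^ ex p n := pow_right_comm _ _ _
    rw [e1, e2, h1, (comm_Pr hW.symm _).mul_pow, h, zero_mul]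
  have hp0 : ((p : ℕ) : ℤ_[p]) ≠ 0 := by exact_mod_cast hp.out.ne_zero
  have hpO : ((p : ℕ) : ℤ_[p]) ∈ maximalIdeal ℤ_[p] := by
    rw [PadicInt.maximalIdeal_eq_span_p]
    exact Ideal.mem_span_singleton_self _
  have he : Ideal.span {((p : ℕ) : ℤ_[p])} = maximalIdeal ℤ_[p] ^ 1 := by
    rw [pow_one, PadicInt.maximalIdeal_eq_span_p]
  ext i j
  have h3 := Pr_depth hp.out hpO (fun a h => (mul_eq_zero.1 h).resolve_left hp0)
    (us.map fun u : ℤ_[p]ˣ => (u : ℤ_[p]) ^ ex p n) (X := Y ^ ex p n) (by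
      intro c hc
      obtain ⟨u, _, rfl⟩ := List.mem_map.1 hc
      refine DX_of hp0 he ((Commute.refl _).smul_left _) ?_
      exact twist_mem (ex_unit p n u) (ex_mat p n X)) a ha r ⊥ 0 (by simp) (by rw [h2, smul_zero]) i j
  exact h3

end

section

variable {Γ : Subgroup GQ} {p : ℕ} [hp : Fact p.Prime] {n : ℕ} {S : Finset ℕ}

theorem pr_mem (g : Γ) (cs : List ℤ_[p]) (E r : ℕ) (a b : Fin n) :
    (fun ρ : Rep Γ p n S =>
      ((Pr cs ((ρ.rho g : Matrix (Fin n) (Fin n) ℤ_[p]) ^ E)) ^ r) a b) ∈ Reg Γ p n S := by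
  let U : Matrix (Fin n) (Fin n) (Reg Γ p n S) := fun a b =>
    ⟨fun ρ => (ρ.rho g : Matrix (Fin n) (Fin n) ℤ_[p]) a b,
      Subring.subset_closure (Or.inr ⟨g, a, b, rfl⟩)⟩
  let C : ℤ_[p] → Reg Γ p n S := fun c => ⟨fun _ => c, Subring.subset_closure (Or.inl ⟨c, rfl⟩)⟩
  let Z : Matrix (Fin n) (Fin n) (Reg Γ p n S) := (Pr (cs.map C) (U ^ E)) ^ r
  have h1 : ∀ ρ : Rep Γ p n S, (Z a b : Rep Γ p n S → ℤ_[p]) ρ =
      ((Pr cs ((ρ.rho g : Matrix (Fin n) (Fin n) ℤ_[p]) ^ E)) ^ r) a b := by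
    intro ρ
    let ev : Reg Γ p n S →+* ℤ_[p] := (Pi.evalRingHom (fun _ => ℤ_[p]) ρ).comp (Reg Γ p n S).subtype
    have h2 : ev.mapMatrix Z = (Pr cs ((ρ.rho g : Matrix (Fin n) (Fin n) ℤ_[p]) ^ E)) ^ r := by
      rw [map_pow, Pr_map, map_pow, List.map_map]
      congr 2
      exact List.map_id _
    rw [← h2]
    rfl
  have h2 : (fun ρ : Rep Γ p n S =>
      ((Pr cs ((ρ.rho g : Matrix (Fin n) (Fin n) ℤ_[p]) ^ E)) ^ r) a b) =
      (Z a b : Rep Γ p n S → ℤ_[p]) := by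
    ext1 ρ
    exact (h1 ρ).symm
  rw [h2]
  exact (Z a b).2

end

end Pool.Agent.T9h32.FP
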