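import Mathlib

/-! Generation of groups modulo small subgroups. -/

set_option autoImplicit false

namespace Pool.Agent.T9h32.FP

variable {p : ℕ} [hp : Fact p.Prime]

theorem exists_index_p {Q : Type*} [Group Q] [Finite Q] (hQ : IsPGroup p Q) (H : Subgroup Q)
    (hH : H ≠ ⊤) : ∃ K : Subgroup Q, H ≤ K ∧ K.index = p := by
  obtain ⟨m, hm⟩ := IsPGroup.iff_card.1 hQ
  obtain ⟨k, hk⟩ := IsPGroup.iff_card.1 (hQ.to_subgroup H)
  have hkm : k < m := by
    by_contra hcon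
    push Not at hcon
    apply hH
    apply Subgroup.eq_top_of_le_card
    rw [hm, hk]
    exact Nat.pow_le_pow_right hp.out.pos hcon
  obtain ⟨K, hK1, hK2⟩ := Sylow.exists_subgroup_card_pow_prime_le p (n := k) (m := m - 1) (by
    rw [hm]
    exact pow_dvd_pow _ (Nat.sub_le _ _)) H hk (by omega)
  refine ⟨K, hK2, ?_⟩
  have h1 := K.card_mul_index
  rw [hK1, hm] at h1
  have h2 : p ^ m = p ^ (m - 1) * p := by
    rw [← pow_succ]
    congr 1
    omega
  rw [h2] at h1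
  exact Nat.eq_of_mul_eq_mul_left (pow_pos hp.out.pos _) h1

theorem gen {G : Type*} [Group G] (Γ N J W H : Subgroup G) (hNΓ : N ≤ Γ) (hJN : J ≤ N) (hWN : W ≤ N)
    (hn : (J.subgroupOf N).Normal) (hfin : Finite (N ⧸ J.subgroupOf N))
    (hpg : IsPGroup p (N ⧸ J.subgroupOf N))
    (hW : ∀ M : Subgroup G, J ≤ M → M ≤ N → M.index = p * N.index → W ≤ M)
    (hH : ∀ g ∈ Γ, ∃ h ∈ H, h⁻¹ * g ∈ W) : ∀ g ∈ Γ, ∃ h ∈ H, h⁻¹ * g ∈ J := by
  let π : N →* N ⧸ J.subgroupOf N := QuotientGroup.mk' _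
  have htop : (H.subgroupOf N).map π = ⊤ := by
    by_contra hne
    obtain ⟨K, hK1, hK2⟩ := exists_index_p hpg _ hne
    let M : Subgroup G := (K.comap π).map N.subtype
    have hJM : J ≤ M := by
      intro x hx
      refine ⟨⟨x, hJN hx⟩, ?_, rfl⟩
      change π ⟨x, hJN hx⟩ ∈ K
      have h1 : π ⟨x, hJN hx⟩ = 1 := by
        rw [← MonoidHom.mem_ker, QuotientGroup.ker_mk']
        exact hx
      rw [h1]
      exact one_mem K
    have hMN : M ≤ N := by
      rintro _ ⟨y, _, rfl⟩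
      exact y.2
    have hWM : W ≤ M := by
      apply hW M hJM hMN
      change ((K.comap π).map N.subtype).index = _
      rw [Subgroup.index_map_subtype, Subgroup.index_comap_of_surjective _
        (QuotientGroup.mk'_surjective _), hK2]
    apply hp.out.one_lt.ne'
    rw [← hK2, Subgroup.index_eq_one, eq_top_iff]
    intro q _
    obtain ⟨y, rfl⟩ := QuotientGroup.mk'_surjective (J.subgroupOf N) q
    obtain ⟨h, hh, hw⟩ := hH y.1 (hNΓ y.2)
    have hhN : h ∈ N := by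
      have h1 := N.mul_mem y.2 (N.inv_mem (hWN hw))
      have h2 : y.1 * (h⁻¹ * y.1)⁻¹ = h := by group
      rwa [h2] at h1
    obtain ⟨z, hz, hzw⟩ := hWM hw
    have h3 : y = ⟨h, hhN⟩ * z := by
      apply Subtype.ext
      change y.1 = h * z.1
      have h4 : z.1 = h⁻¹ * y.1 := hzw
      rw [h4, mul_inv_cancel_left]
    change π y ∈ K
    rw [h3, map_mul]
    exact K.mul_mem (hK1 ⟨⟨h, hhN⟩, hh, rfl⟩) hz
  intro g hg
  obtain ⟨h, hh, hw⟩ := hH g hg
  have h1 : π ⟨h⁻¹ * g, hWN hw⟩ ∈ (H.subgroupOf N).map π := by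
    rw [htop]
    trivial
  obtain ⟨y, hy, hyπ⟩ := h1
  have h2 : y⁻¹ * ⟨h⁻¹ * g, hWN hw⟩ ∈ J.subgroupOf N := QuotientGroup.eq.1 hyπ
  refine ⟨h * y.1, H.mul_mem hh hy, ?_⟩
  have h3 : (h * y.1)⁻¹ * g = y.1⁻¹ * (h⁻¹ * g) := by group
  rw [h3]
  exact h2

end Pool.Agent.T9h32.FP
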