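import Pool.Agent.T9h32.FP.Noeth
import Pool.Agent.T9h32.FP.Gen
import Pool.Agent.Y802.TS.Padic
import Pool.Agent.Y802.TS.Elem
import Pool.Agent.Y802.TS.Fm

/-! The family of all integral representations unramified outside a finite set of primes. -/

set_option autoImplicit false

open Matrix IsLocalRing Finset NumberField Topology

namespace Pool.Agent.T9h32.FP

attribute [local instance 10] DivisionRing.toRatAlgebra

open Pool.Agent.Y800 Pool.Agent.Y802.TS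

variable (Γ : Subgroup GQ) (p : ℕ) [hp : Fact p.Prime] (n : ℕ) (S : Finset ℕ)

/-- the integral representations unramified outside `S` -/
structure Rep : Type where
  /-- the representation -/
  rho : Γ →* GL (Fin n) ℤ_[p]
  op : ∀ i, IsOpen (Kj rho (maximalIdeal ℤ_[p] ^ i) : Set GQ)
  unr : UnrOut rho S

/-- the elements on which all representations are trivial modulo `p ^ k` -/
noncomputable def Jk (k : ℕ) : Subgroup GQ :=
  Γ ⊓ ⨅ ρ : Rep Γ p n S, Kj ρ.1 (maximalIdeal ℤ_[p] ^ k)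

variable {Γ p n S}

theorem mem_Jk {k : ℕ} {g : GQ} : g ∈ Jk Γ p n S k ↔ ∃ h : g ∈ Γ, ∀ ρ : Rep Γ p n S, ∀ a b,
    ((ρ.1 ⟨g, h⟩ : Matrix (Fin n) (Fin n) ℤ_[p]) - 1) a b ∈ maximalIdeal ℤ_[p] ^ k := by
  unfold Jk
  rw [Subgroup.mem_inf, Subgroup.mem_iInf]
  constructor
  · rintro ⟨h, h1⟩
    refine ⟨h, fun ρ a b => ?_⟩
    obtain ⟨_, h2⟩ := (mem_Kj ρ.1).1 (h1 ρ)
    exact h2 a b
  · rintro ⟨h, h1⟩
    exact ⟨h, fun ρ => (mem_Kj ρ.1).2 ⟨h, h1 ρ⟩⟩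

theorem Jk_mono {k k' : ℕ} (h : k ≤ k') : Jk Γ p n S k' ≤ Jk Γ p n S k := by
  intro g hg
  rw [mem_Jk] at hg ⊢
  obtain ⟨h1, h2⟩ := hg
  exact ⟨h1, fun ρ a b => Ideal.pow_le_pow_right h (h2 ρ a b)⟩

theorem Jk_inertia (hΓS : ∀ q : ℕ, q.Prime → q ∉ S → ∀ P : Ideal ZBar, P.IsMaximal → (q : ZBar) ∈ P →
    ∀ τ : GQ, InInertia P τ → τ ∈ Γ) (k : ℕ) :
    ∀ q : ℕ, q.Prime → q ∉ S → ∀ P : Ideal ZBar, P.IsMaximal → (q : ZBar) ∈ P →
    ∀ τ : GQ, InInertia P τ → τ ∈ Jk Γ p n S k := by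
  intro q hq hqS P hP hqP τ hτ
  rw [mem_Jk]
  refine ⟨hΓS q hq hqS P hP hqP τ hτ, fun ρ a b => ?_⟩
  obtain ⟨h, h1⟩ := ρ.unr q hq hqS P hP hqP τ hτ
  rw [h1, Units.val_one, sub_self]
  exact Ideal.zero_mem _

theorem Jk_ge (hΓ : IsOpen (Γ : Set GQ))
    (hΓS : ∀ q : ℕ, q.Prime → q ∉ S → ∀ P : Ideal ZBar, P.IsMaximal → (q : ZBar) ∈ P →
      ∀ τ : GQ, InInertia P τ → τ ∈ Γ) (k : ℕ) :
    H0 S (Γ.index * (p ^ k) ^ (n * n)).factorial ≤ Jk Γ p n S k := by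
  have hfin := (card_quot p k).1
  have hcard := (card_quot p k).2
  refine le_inf ?_ (le_iInf fun ρ => ?_)
  · apply H0_le hΓ ?_ hΓS
    apply Nat.factorial_le
    exact Nat.le_mul_of_pos_right _ (pow_pos (pow_pos hp.out.pos _) _)
  · apply H0_le (ρ.op k)
    · apply Nat.factorial_le
      refine (Kj_index ρ.1 hΓ (maximalIdeal ℤ_[p] ^ k)).2.trans ?_
      exact Nat.mul_le_mul_left _ (Nat.pow_le_pow_left hcard _)
    · intro q hq hqS P hP hqP τ hτ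
      obtain ⟨h, h1⟩ := ρ.unr q hq hqS P hP hqP τ hτ
      rw [mem_Kj]
      refine ⟨h, fun a b => ?_⟩
      rw [h1, Units.val_one, sub_self]
      exact Ideal.zero_mem _

theorem Jk_open (hΓ : IsOpen (Γ : Set GQ))
    (hΓS : ∀ q : ℕ, q.Prime → q ∉ S → ∀ P : Ideal ZBar, P.IsMaximal → (q : ZBar) ∈ P →
      ∀ τ : GQ, InInertia P τ → τ ∈ Γ) (k : ℕ) : IsOpen (Jk Γ p n S k : Set GQ) :=
  Subgroup.isOpen_mono (Jk_ge hΓ hΓS k) (H0_open _ _)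

theorem conj_mem {k : ℕ} {g x : GQ} (hg : g ∈ Γ) (hx : x ∈ Jk Γ p n S k) :
    g * x * g⁻¹ ∈ Jk Γ p n S k := by
  rw [mem_Jk] at hx ⊢
  obtain ⟨h1, h2⟩ := hx
  refine ⟨Γ.mul_mem (Γ.mul_mem hg h1) (Γ.inv_mem hg), fun ρ a b => ?_⟩
  have h3 : (ρ.1 ⟨g * x * g⁻¹, Γ.mul_mem (Γ.mul_mem hg h1) (Γ.inv_mem hg)⟩ :
      Matrix (Fin n) (Fin n) ℤ_[p]) - 1 = (ρ.1 ⟨g, hg⟩ : Matrix (Fin n) (Fin n) ℤ_[p]) *
      ((ρ.1 ⟨x, h1⟩ : Matrix (Fin n) (Fin n) ℤ_[p]) - 1) *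
      ((ρ.1 ⟨g, hg⟩)⁻¹ : GL (Fin n) ℤ_[p]) := by
    have e1 : (⟨g * x * g⁻¹, Γ.mul_mem (Γ.mul_mem hg h1) (Γ.inv_mem hg)⟩ : Γ) =
        ⟨g, hg⟩ * ⟨x, h1⟩ * ⟨g, hg⟩⁻¹ := rfl
    rw [e1, map_mul, map_mul, map_inv, Units.val_mul, Units.val_mul, mul_sub, sub_mul, mul_one,
      Units.mul_inv]
  rw [h3, Matrix.mul_apply]
  refine Ideal.sum_mem _ fun c _ => Ideal.mul_mem_right _ _ ?_
  rw [Matrix.mul_apply]
  exact Ideal.sum_mem _ fun d _ => Ideal.mul_mem_left _ _ (h2 ρ d c)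

/-- `p`-th powers -/
theorem pow_step {i : ℕ} (hi : 1 ≤ i) {X : Matrix (Fin n) (Fin n) ℤ_[p]}
    (hX : ∀ a b, (X - 1) a b ∈ maximalIdeal ℤ_[p] ^ i) :
    ∀ a b, (X ^ p - 1) a b ∈ maximalIdeal ℤ_[p] ^ (i + 1) := by
  have hpm : ((p : ℕ) : ℤ_[p]) ∈ maximalIdeal ℤ_[p] := by
    rw [PadicInt.maximalIdeal_eq_span_p]
    exact Ideal.mem_span_singleton_self _
  have h0 : ∀ a b, (X - 1) a b ∈ maximalIdeal ℤ_[p] := by
    intro a b
    have := Ideal.pow_le_pow_right hi (hX a b)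
    rwa [pow_one] at this
  have h1 : ∀ j : ℕ, ∀ a b, (X ^ j - 1) a b ∈ maximalIdeal ℤ_[p] := by
    intro j
    induction j with
    | zero => intro a b; simp
    | succ j ih =>
      intro a b
      have h2 : X ^ (j + 1) - 1 = X ^ j * (X - 1) + (X ^ j - 1) := by
        rw [pow_succ]
        noncomm_ring
      rw [h2, Matrix.add_apply]
      refine Ideal.add_mem _ ?_ (ih a b)
      rw [Matrix.mul_apply]
      exact Ideal.sum_mem _ fun c _ => Ideal.mul_mem_left _ _ (h0 c b)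
  have h2 : ∀ a b, (∑ j ∈ range p, X ^ j) a b ∈ maximalIdeal ℤ_[p] := by
    intro a b
    have h3 : ∑ j ∈ range p, X ^ j = ∑ j ∈ range p, (X ^ j - 1) + (p : ℕ) • (1 : Matrix _ _ _) := by
      rw [Finset.sum_sub_distrib, Finset.sum_const, Finset.card_range, sub_add_cancel]
    rw [h3, Matrix.add_apply, Matrix.sum_apply]
    refine Ideal.add_mem _ (Ideal.sum_mem _ fun j _ => h1 j a b) ?_
    rw [Matrix.smul_apply, nsmul_eq_mul]
    exact Ideal.mul_mem_right _ _ hpm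
  intro a b
  rw [← mul_geom_sum, Matrix.mul_apply, pow_succ]
  exact Ideal.sum_mem _ fun c _ => Ideal.mul_mem_mul (hX a c) (h2 c b)

theorem pow_steps {X : Matrix (Fin n) (Fin n) ℤ_[p]}
    (hX : ∀ a b, (X - 1) a b ∈ maximalIdeal ℤ_[p]) (k : ℕ) :
    ∀ a b, (X ^ (p ^ k) - 1) a b ∈ maximalIdeal ℤ_[p] ^ (k + 1) := by
  induction k with
  | zero =>
    intro a b
    simpa using hX a b
  | succ k ih =>
    have h1 := pow_step (i := k + 1) (by omega) ih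
    have h2 : X ^ p ^ (k + 1) = (X ^ p ^ k) ^ p := by rw [← pow_mul, ← pow_succ]
    intro a b
    rw [h2]
    exact h1 a b

theorem isPG (k : ℕ) (hn : ((Jk Γ p n S k).subgroupOf (Jk Γ p n S 1)).Normal) :
    IsPGroup p (Jk Γ p n S 1 ⧸ (Jk Γ p n S k).subgroupOf (Jk Γ p n S 1)) := by
  intro x
  obtain ⟨g, rfl⟩ := QuotientGroup.mk'_surjective _ x
  refine ⟨k, ?_⟩
  rw [← map_pow, ← MonoidHom.mem_ker, QuotientGroup.ker_mk']
  change ((g ^ p ^ k : Jk Γ p n S 1) : GQ) ∈ Jk Γ p n S k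
  apply Jk_mono (Nat.le_succ k)
  obtain ⟨h1, h2⟩ := mem_Jk.1 g.2
  rw [mem_Jk]
  have h3 : ((g ^ p ^ k : Jk Γ p n S 1) : GQ) ∈ Γ := by
    rw [SubmonoidClass.coe_pow]
    exact Γ.pow_mem h1 _
  refine ⟨h3, fun ρ a b => ?_⟩
  have e1 : (⟨((g ^ p ^ k : Jk Γ p n S 1) : GQ), h3⟩ : Γ) = (⟨(g : GQ), h1⟩ : Γ) ^ p ^ k := rfl
  rw [e1, map_pow, Units.val_pow_eq_pow_val]
  apply pow_steps
  intro a b
  have := h2 ρ a b
  rwa [pow_one] at this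

/-- **Topological generation.** -/
theorem top_gen (hΓ : IsOpen (Γ : Set GQ))
    (hΓS : ∀ q : ℕ, q.Prime → q ∉ S → ∀ P : Ideal ZBar, P.IsMaximal → (q : ZBar) ∈ P →
      ∀ τ : GQ, InInertia P τ → τ ∈ Γ) :
    ∃ (ι : Type) (_ : Finite ι) (r : ι → Γ), ∀ k : ℕ, ∀ g ∈ Γ,
      ∃ h ∈ (Subgroup.closure (Set.range r)).map Γ.subtype, h⁻¹ * g ∈ Jk Γ p n S k := by
  classical
  let N := Jk Γ p n S 1
  have hN : IsOpen (N : Set GQ) := Jk_open hΓ hΓS 1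
  have hNi : N.index ≠ 0 := by
    have hq : Finite (GQ ⧸ N) := Subgroup.quotient_finite_of_isOpen _ hN
    change Nat.card (GQ ⧸ N) ≠ 0
    exact Nat.card_pos.ne'
  let W := H0 S (p * N.index).factorial
  have hW : IsOpen (W : Set GQ) := H0_open _ _
  have hWN : W ≤ N := H0_le hN (Nat.factorial_le (Nat.le_mul_of_pos_left _ hp.out.pos))
    (Jk_inertia hΓS 1)
  have hfW : Finite (GQ ⧸ W) := Subgroup.quotient_finite_of_isOpen _ hW
  have hex : ∀ q : GQ ⧸ W, ∃ g : Γ, (∃ g' : Γ, QuotientGroup.mk (g' : GQ) = q) →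
      QuotientGroup.mk (g : GQ) = q := by
    intro q
    by_cases h : ∃ g' : Γ, (QuotientGroup.mk (g' : GQ) : GQ ⧸ W) = q
    · obtain ⟨g', hg'⟩ := h
      exact ⟨g', fun _ => hg'⟩
    · exact ⟨1, fun h' => absurd h' h⟩
  choose r hr using hex
  refine ⟨GQ ⧸ W, hfW, r, ?_⟩
  have hNΓ : N ≤ Γ := fun x hx => (mem_Jk.1 hx).1
  have hgen : ∀ k : ℕ, 1 ≤ k → ∀ g ∈ Γ,
      ∃ h ∈ (Subgroup.closure (Set.range r)).map Γ.subtype, h⁻¹ * g ∈ Jk Γ p n S k := by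
    intro k hk
    have hn : ((Jk Γ p n S k).subgroupOf N).Normal := by
      constructor
      intro x hx g
      exact conj_mem (hNΓ g.2) hx
    have hJo : IsOpen (Jk Γ p n S k : Set GQ) := Jk_open hΓ hΓS k
    have hfi : (Jk Γ p n S k).FiniteIndex := finiteIndex_of_open hJo
    refine gen (p := p) Γ N (Jk Γ p n S k) W _ hNΓ (Jk_mono hk) hWN hn inferInstance (isPG k hn) ?_ ?_
    · intro M hJM hMN hM
      apply H0_le (Subgroup.isOpen_mono hJM hJo) (by rw [hM])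
      intro q hq hqS P hP hqP τ hτ
      exact hJM (Jk_inertia hΓS k q hq hqS P hP hqP τ hτ)
    · intro g hg
      refine ⟨r (QuotientGroup.mk g), ⟨r (QuotientGroup.mk g), Subgroup.subset_closure ⟨_, rfl⟩, rfl⟩,
        ?_⟩
      exact QuotientGroup.eq.1 (hr (QuotientGroup.mk g) ⟨⟨g, hg⟩, rfl⟩)
  intro k g hg
  obtain ⟨h, hh, h1⟩ := hgen (max k 1) (le_max_right _ _) g hg
  exact ⟨h, hh, Jk_mono (le_max_left _ _) h1⟩

end Pool.Agent.T9h32.FP
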