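import Pool.Agent.Y802.TS.Padic
import Pool.Agent.Y802.TS.Fm

/-! Stable lattices. -/

set_option autoImplicit false

open Matrix IsLocalRing Finset NumberField Topology

namespace Pool.Agent.T9h32.FP

attribute [local instance 10] DivisionRing.toRatAlgebra

open Pool.Agent.Y800 Pool.Agent.Y802.TS

variable {p : ℕ} [hp : Fact p.Prime] {n : ℕ}

/-- A lattice is the span of a basis. -/
theorem lattice_basis (M : Submodule ℤ_[p] (Fin n → ℚ_[p]))
    (hfg : M.FG) (h1 : ∀ i, (Pi.single i 1 : Fin n → ℚ_[p]) ∈ M) :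
    ∃ P : GL (Fin n) ℚ_[p], ∀ v : Fin n → ℚ_[p],
      v ∈ M ↔ ∀ i, ‖((P : Matrix (Fin n) (Fin n) ℚ_[p]) *ᵥ v) i‖ ≤ 1 := by
  have hsp : Submodule.span ℚ_[p] (M : Set (Fin n → ℚ_[p])) = ⊤ := by
    rw [eq_top_iff, ← (Pi.basisFun ℚ_[p] (Fin n)).span_eq]
    refine Submodule.span_mono ?_
    rintro _ ⟨i, rfl⟩
    rw [Pi.basisFun_apply]
    exact h1 i
  have : Submodule.IsLattice ℚ_[p] M := ⟨hfg, hsp⟩
  have hfin : Module.finrank ℤ_[p] M = Fintype.card (Fin n) :=
    Submodule.IsLattice.finrank_of_pi ℚ_[p] M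
  let b0 : Module.Basis (Fin n) ℤ_[p] M :=
    (Module.finBasisOfFinrankEq ℤ_[p] M hfin).reindex (Fintype.equivFin (Fin n)).symm
  let b := b0.extendOfIsLattice ℚ_[p]
  have hb : ∀ k, b k = (b0 k : Fin n → ℚ_[p]) := fun k => b0.extendOfIsLattice_apply ℚ_[p] k
  refine ⟨⟨b.toMatrix (Pi.basisFun ℚ_[p] (Fin n)), (Pi.basisFun ℚ_[p] (Fin n)).toMatrix b,
    Module.Basis.toMatrix_mul_toMatrix_flip _ _, Module.Basis.toMatrix_mul_toMatrix_flip _ _⟩, ?_⟩
  intro v
  change _ ↔ ∀ i, ‖((b.toMatrix (Pi.basisFun ℚ_[p] (Fin n))) *ᵥ v) i‖ ≤ 1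
  have hrep : (b.toMatrix (Pi.basisFun ℚ_[p] (Fin n))) *ᵥ v = b.repr v := by
    have := Module.Basis.toMatrix_mulVec_repr (Pi.basisFun ℚ_[p] (Fin n)) b v
    rw [← this]
    rfl
  rw [hrep]
  constructor
  · intro hv i
    have h4 : v = ∑ k, (algebraMap ℤ_[p] ℚ_[p] (b0.repr ⟨v, hv⟩ k)) • b k := by
      calc v = ((∑ k, b0.repr ⟨v, hv⟩ k • b0 k : M) : Fin n → ℚ_[p]) := by rw [b0.sum_repr]
        _ = _ := by
          rw [Submodule.coe_sum]
          refine Finset.sum_congr rfl fun k _ => ?_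
          rw [hb, Submodule.coe_smul_of_tower, algebraMap_smul]
    have h3 : b.repr v i = algebraMap ℤ_[p] ℚ_[p] (b0.repr ⟨v, hv⟩ i) :=
      (congrArg (fun w => (b.repr w) i) h4).trans (congrFun (b.repr_sum_self _) i)
    rw [h3]
    exact PadicInt.norm_le_one _
  · intro hv
    rw [← b.sum_repr v]
    refine Submodule.sum_mem _ fun k _ => ?_
    let z : ℤ_[p] := ⟨b.repr v k, hv k⟩
    have h3 : b.repr v k • b k = z • (b0 k : Fin n → ℚ_[p]) := by
      rw [hb, ← algebraMap_smul ℚ_[p] z]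
      rfl
    rw [h3]
    exact M.smul_mem _ (b0 k).2

theorem mulVec_single_one' (A : Matrix (Fin n) (Fin n) ℚ_[p]) (j : Fin n) :
    A *ᵥ (Pi.single j 1) = fun i => A i j := by
  ext i
  simp [Matrix.mulVec_single]

/-- **A stable lattice.** -/
theorem exists_lattice {G : Type} [Group G] (ρ : G →* GL (Fin n) ℚ_[p]) (U : Subgroup G)
    (hfi : U.FiniteIndex) (hU : ∀ u ∈ U, ρ u ∈ (inc p n).range) :
    ∃ (P : GL (Fin n) ℚ_[p]) (ρ' : G →* GL (Fin n) ℤ_[p]), ∀ g, inc p n (ρ' g) = P * ρ g * P⁻¹ := by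
  classical
  let F : G × Fin n → (Fin n → ℚ_[p]) := fun x =>
    (ρ x.1 : Matrix (Fin n) (Fin n) ℚ_[p]) *ᵥ (Pi.single x.2 1)
  let M : Submodule ℤ_[p] (Fin n → ℚ_[p]) := Submodule.span ℤ_[p] (Set.range F)
  let F0 : (G ⧸ U) × Fin n → (Fin n → ℚ_[p]) := fun x => F (Quotient.out x.1, x.2)
  have hM0 : M = Submodule.span ℤ_[p] (Set.range F0) := by
    apply le_antisymm
    · apply Submodule.span_le.2
      rintro _ ⟨⟨g, j⟩, rfl⟩
      let g0 : G := Quotient.out (QuotientGroup.mk g : G ⧸ U)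
      have h1 : g0⁻¹ * g ∈ U := QuotientGroup.eq.1 (Quotient.out_eq _)
      obtain ⟨X, hX⟩ := hU _ h1
      have h2 : (ρ g : Matrix (Fin n) (Fin n) ℚ_[p]) = (ρ g0 : Matrix (Fin n) (Fin n) ℚ_[p]) *
          (inc p n X : Matrix (Fin n) (Fin n) ℚ_[p]) := by
        rw [hX, ← Units.val_mul, ← map_mul, mul_inv_cancel_left]
      have h3 : F (g, j) = ∑ k : Fin n, ((X : Matrix (Fin n) (Fin n) ℤ_[p]) k j) • F (g0, k) := by
        change (ρ g : Matrix (Fin n) (Fin n) ℚ_[p]) *ᵥ (Pi.single j 1) = _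
        rw [h2, ← Matrix.mulVec_mulVec]
        have h4 : (inc p n X : Matrix (Fin n) (Fin n) ℚ_[p]) *ᵥ (Pi.single j 1) =
            ∑ k : Fin n, ((X : Matrix (Fin n) (Fin n) ℤ_[p]) k j) •
              (Pi.single k 1 : Fin n → ℚ_[p]) := by
          rw [mulVec_single_one']
          ext i
          rw [Finset.sum_apply, Finset.sum_eq_single i]
          · rw [Pi.smul_apply, Pi.single_eq_same, inc_apply, Algebra.smul_def, mul_one]
            rfl
          · intro b _ hb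
            rw [Pi.smul_apply, Pi.single_eq_of_ne (Ne.symm hb), smul_zero]
          · intro h
            exact absurd (Finset.mem_univ _) h
        rw [h4, Matrix.mulVec_sum]
        refine Finset.sum_congr rfl fun k _ => ?_
        rw [← algebraMap_smul ℚ_[p] ((X : Matrix (Fin n) (Fin n) ℤ_[p]) k j), Matrix.mulVec_smul,
          algebraMap_smul]
      rw [h3]
      refine Submodule.sum_mem _ fun k _ => Submodule.smul_mem _ _ ?_
      exact Submodule.subset_span ⟨(QuotientGroup.mk g, k), rfl⟩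
    · apply Submodule.span_mono
      rintro _ ⟨⟨q, j⟩, rfl⟩
      exact ⟨_, rfl⟩
  have hq : Finite (G ⧸ U) := inferInstance
  have hfg : M.FG := by
    rw [hM0]
    exact Submodule.fg_span (Set.finite_range _)
  have hstab : ∀ g : G, ∀ v ∈ M, (ρ g : Matrix (Fin n) (Fin n) ℚ_[p]) *ᵥ v ∈ M := by
    intro g v hv
    induction hv using Submodule.span_induction with
    | mem x hx =>
      obtain ⟨⟨h, j⟩, rfl⟩ := hx
      refine Submodule.subset_span ⟨(g * h, j), ?_⟩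
      change (ρ (g * h) : Matrix (Fin n) (Fin n) ℚ_[p]) *ᵥ (Pi.single j 1) = _
      rw [map_mul, Units.val_mul, ← Matrix.mulVec_mulVec]
    | zero => rw [Matrix.mulVec_zero]; exact M.zero_mem
    | add x y _ _ hx hy => rw [Matrix.mulVec_add]; exact M.add_mem hx hy
    | smul a x _ hx =>
      rw [← algebraMap_smul ℚ_[p] a, Matrix.mulVec_smul, algebraMap_smul]
      exact M.smul_mem a hx
  obtain ⟨P, hP⟩ := lattice_basis M hfg (by
    intro i
    refine Submodule.subset_span ⟨(1, i), ?_⟩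
    change (ρ 1 : Matrix (Fin n) (Fin n) ℚ_[p]) *ᵥ (Pi.single i 1) = _
    rw [map_one, Units.val_one, Matrix.one_mulVec])
  have hint : ∀ g : G, ∀ a b, ‖((P * ρ g * P⁻¹ : GL (Fin n) ℚ_[p]) :
      Matrix (Fin n) (Fin n) ℚ_[p]) a b‖ ≤ 1 := by
    intro g a b
    have h1 : ((P⁻¹ : GL (Fin n) ℚ_[p]) : Matrix (Fin n) (Fin n) ℚ_[p]) *ᵥ (Pi.single b 1) ∈ M := by
      rw [hP]
      intro i
      rw [Matrix.mulVec_mulVec, Units.mul_inv, Matrix.one_mulVec]
      by_cases hib : i = b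
      · rw [hib, Pi.single_eq_same, norm_one]
      · rw [Pi.single_eq_of_ne hib, norm_zero]
        exact zero_le_one
    have h2 := (hP _).1 (hstab g _ h1) a
    rw [Matrix.mulVec_mulVec, Matrix.mulVec_mulVec, mulVec_single_one'] at h2
    rw [Units.val_mul, Units.val_mul]
    exact h2
  have hmem : ∀ g : G, P * ρ g * P⁻¹ ∈ (inc p n).range := by
    intro g
    refine mem_inc_range p n _ (hint g) ?_
    have h1 : (P * ρ g * P⁻¹)⁻¹ = P * ρ g⁻¹ * P⁻¹ := by
      rw [map_inv]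
      group
    rw [h1]
    exact hint g⁻¹
  let c : G →* GL (Fin n) ℚ_[p] := (MulAut.conj P).toMonoidHom.comp ρ
  have hc : ∀ g, c g = P * ρ g * P⁻¹ := fun g => rfl
  let e := MonoidHom.ofInjective (inc_inj p n)
  let ρr : G →* (inc p n).range := c.codRestrict _ (fun g => by rw [hc]; exact hmem g)
  refine ⟨P, e.symm.toMonoidHom.comp ρr, fun g => ?_⟩
  have h1 : e (e.symm (ρr g)) = ρr g := e.apply_symm_apply _
  exact congrArg Subtype.val h1

end Pool.Agent.T9h32.FP
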