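import Pool.Agent.T9h32.FP.Exp
import Pool.Agent.T9h32.FP.Eigc
import Pool.Agent.T9h32.FP.Lat
import Pool.Agent.Y802.TS.Main

/-! Conditions at the Frobenius elements of finitely many primes. -/

set_option autoImplicit false

open Matrix IsLocalRing Finset NumberField Topology Polynomial

namespace Pool.Agent.T9h32.FP

attribute [local instance 10] DivisionRing.toRatAlgebra

open Pool.Agent.Y800 Pool.Agent.Y802.TS

section

variable {Γ : Subgroup GQ} {p : ℕ} [hp : Fact p.Prime] {n : ℕ} {S : Finset ℕ}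

/-- conditions at Frobenius elements stabilize -/
theorem stab_frob (hΓ : IsOpen (Γ : Set GQ))
    (hΓS : ∀ q : ℕ, q.Prime → q ∉ S → ∀ P : Ideal ZBar, P.IsMaximal → (q : ZBar) ∈ P →
      ∀ τ : GQ, InInertia P τ → τ ∈ Γ) (T : ℕ → ℕ) (M : List ℤ) (r i0 : ℕ) :
    ∃ m : ℕ, ∀ ρ : Rep Γ p n S,
      (∀ i, i0 ≤ i → i < m → T i ∉ S → T i ≠ p → ∀ P : Ideal ZBar, P.IsMaximal → (T i : ZBar) ∈ P →
        ∀ σ : GQ, ∀ h : σ ∈ Γ, IsGeomFrob (T i) P σ → ∃ a : ℕ, a ≠ 0 ∧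
          (Pr (M.map fun w => ((cyc p σ ^ w : ℤ_[p]ˣ) : ℤ_[p]) ^ a)
            ((ρ.rho ⟨σ, h⟩ : Matrix (Fin n) (Fin n) ℤ_[p]) ^ a)) ^ r = 0) →
      ∀ i, i0 ≤ i → T i ∉ S → T i ≠ p → ∀ P : Ideal ZBar, P.IsMaximal → (T i : ZBar) ∈ P →
        ∀ σ : GQ, ∀ h : σ ∈ Γ, IsGeomFrob (T i) P σ →
          (Pr (M.map fun w => ((cyc p σ ^ w : ℤ_[p]ˣ) : ℤ_[p]) ^ ex p n)
            ((ρ.rho ⟨σ, h⟩ : Matrix (Fin n) (Fin n) ℤ_[p]) ^ ex p n)) ^ r = 0 := by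
  obtain ⟨m, hm⟩ := fam_stab (p := p) (n := n) hΓ hΓS
    (fun i => {φ | i0 ≤ i ∧ T i ∉ S ∧ T i ≠ p ∧ ∃ (P : Ideal ZBar) (σ : GQ) (h : σ ∈ Γ)
      (a b : Fin n), P.IsMaximal ∧ (T i : ZBar) ∈ P ∧ IsGeomFrob (T i) P σ ∧
      φ = fun ρ : Rep Γ p n S => ((Pr (M.map fun w => ((cyc p σ ^ w : ℤ_[p]ˣ) : ℤ_[p]) ^ ex p n)
            ((ρ.rho ⟨σ, h⟩ : Matrix (Fin n) (Fin n) ℤ_[p]) ^ ex p n)) ^ r) a b}) (by
      rintro i _ ⟨_, _, _, P, σ, h, a, b, _, _, _, rfl⟩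
      exact pr_mem _ _ _ _ _ _)
  refine ⟨m, fun ρ hρ i hi0 hiS hip P hP hTP σ h hσ => ?_⟩
  ext a b
  refine hm ρ ?_ i _ ⟨hi0, hiS, hip, P, σ, h, a, b, hP, hTP, hσ, rfl⟩
  rintro i hi _ ⟨hi0, hiS, hip, P, σ, h, a, b, hP, hTP, hσ, rfl⟩
  obtain ⟨c, hc, h1⟩ := hρ i hi0 hi hiS hip P hP hTP σ h hσ
  have e1 : ∀ c : ℕ, (M.map fun w => ((cyc p σ ^ w : ℤ_[p]ˣ) : ℤ_[p]) ^ c) =
      ((M.map fun w => cyc p σ ^ w).map fun u : ℤ_[p]ˣ => (u : ℤ_[p]) ^ c) := by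
    intro c
    rw [List.map_map]
    rfl
  rw [e1] at h1
  have h2 := ex_red (n := n) (M.map fun w => cyc p σ ^ w) (ρ.rho ⟨σ, h⟩) c r hc h1
  rw [← e1] at h2
  change ((Pr _ _) ^ r) a b = 0
  rw [h2]
  rfl

/-- integral models of representations over the field of `p`-adic numbers -/
theorem exists_rep (hΓ : IsOpen (Γ : Set GQ))
    (hΓS : ∀ q : ℕ, q.Prime → q ∉ S → ∀ P : Ideal ZBar, P.IsMaximal → (q : ZBar) ∈ P →
      ∀ τ : GQ, InInertia P τ → τ ∈ Γ) (ρ : Γ →* GL (Fin n) ℚ_[p]) (hρ : Continuous ρ)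
    (hS : ∀ q : ℕ, q.Prime → q ∉ S → ∀ P : Ideal ZBar, P.IsMaximal → (q : ZBar) ∈ P →
      ∀ τ : GQ, ∀ h : τ ∈ Γ, InInertia P τ → ρ ⟨τ, h⟩ = 1) :
    ∃ (P : GL (Fin n) ℚ_[p]) (R : Rep Γ p n S), ∀ g, inc p n (R.rho g) = P * ρ g * P⁻¹ := by
  obtain ⟨Γ', ρ', hΓ', hΓ'Γ, hρ', _⟩ := exists_integral p n hΓ ρ hρ
  obtain ⟨P, ρ'', h1⟩ := exists_lattice ρ (Γ'.subgroupOf Γ) (by
    have := finiteIndex_of_open hΓ'
    infer_instance) (by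
    intro u hu
    exact ⟨ρ' ⟨u.1, hu⟩, hρ' u.1 hu u.2⟩)
  refine ⟨P, ⟨ρ'', ?_, ?_⟩, h1⟩
  · intro i
    apply Subgroup.isOpen_of_mem_nhds (g := (1 : GQ))
    have hc : Continuous fun g : Γ => P * ρ g * P⁻¹ :=
      (continuous_const.mul hρ).mul continuous_const
    have h2 := hΓ.isOpenEmbedding_subtypeVal.isOpenMap _ ((nbhd_open p n i).preimage hc)
    refine Filter.mem_of_superset (h2.mem_nhds ⟨1, ?_, rfl⟩) ?_
    · rw [Set.mem_preimage, map_one, mul_one, mul_inv_cancel]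
      have h2 : (0 : ℝ) ≤ (p : ℝ) ^ (-(i : ℤ)) := zpow_nonneg (by positivity) _
      constructor
      · intro a b
        rw [Units.val_one, sub_self, Matrix.zero_apply, norm_zero]
        exact h2
      · intro a b
        rw [inv_one, Units.val_one, sub_self, Matrix.zero_apply, norm_zero]
        exact h2
    · rintro _ ⟨y, hy, rfl⟩
      rw [SetLike.mem_coe, mem_Kj]
      refine ⟨y.2, fun a b => ?_⟩
      rw [mem_max_pow]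
      have h2 := hy.1 a b
      have e5 : (fun g : Γ => P * ρ g * P⁻¹) y = inc p n (ρ'' y) := (h1 y).symm
      rw [e5] at h2
      have h4 : ((inc p n (ρ'' y) : Matrix (Fin n) (Fin n) ℚ_[p]) - 1) a b =
          ((((ρ'' ⟨y, y.2⟩ : Matrix (Fin n) (Fin n) ℤ_[p]) - 1) a b : ℤ_[p]) : ℚ_[p]) := by
        rw [Matrix.sub_apply, Matrix.sub_apply, inc_apply, PadicInt.coe_sub, Matrix.one_apply,
          Matrix.one_apply]
        split_ifs <;> simp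
      rw [h4] at h2
      exact h2
  · intro q hq hqS Q hQ hqQ τ hτ
    have h2 := hΓS q hq hqS Q hQ hqQ τ hτ
    refine ⟨h2, ?_⟩
    apply inc_inj p n
    rw [h1, hS q hq hqS Q hQ hqQ τ h2 hτ, mul_one, mul_inv_cancel, map_one]

end

end Pool.Agent.T9h32.FP
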