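import Pool.Agent.T9h32.FP.Frob

/-! The main theorem. -/

set_option autoImplicit false

open Matrix IsLocalRing Finset NumberField Topology Polynomial

namespace Pool.Agent.T9h32.FP

attribute [local instance 10] DivisionRing.toRatAlgebra

open Pool.Agent.Y800 Pool.Agent.Y802.TS

section

variable {Γ : Subgroup GQ} {p : ℕ} [hp : Fact p.Prime] {n : ℕ} {S : Finset ℕ}

/-- the matrices of the Frobenius elements above the primes `T i` with `i₀ ≤ i < m` -/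
def Fin1 (S : Finset ℕ) (T : ℕ → ℕ) (i0 m : ℕ) (ρ : Γ →* GL (Fin n) ℚ_[p])
    (C : ℕ → GL (Fin n) ℚ_[p] → Prop) : Prop :=
  ∀ i, i0 ≤ i → i < m → T i ∉ S → T i ≠ p → ∀ P : Ideal ZBar, P.IsMaximal → (T i : ZBar) ∈ P →
        ∀ σ : GQ, ∀ h : σ ∈ Γ, IsGeomFrob (T i) P σ → C (T i) (ρ ⟨σ, h⟩)

theorem inc_mat_inj : Function.Injective (fun Z : Matrix (Fin n) (Fin n) ℤ_[p] =>
    (algebraMap ℤ_[p] ℚ_[p]).mapMatrix Z) := by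
  intro Z Z' h
  ext a b
  apply Subtype.ext
  exact congrFun (congrFun h a) b

theorem Pr_inc (M : List ℤ) (σ : GQ) (a r : ℕ) (X : GL (Fin n) ℤ_[p]) :
    (algebraMap ℤ_[p] ℚ_[p]).mapMatrix
      ((Pr (M.map fun w => ((cyc p σ ^ w : ℤ_[p]ˣ) : ℤ_[p]) ^ a)
        ((X : Matrix (Fin n) (Fin n) ℤ_[p]) ^ a)) ^ r) =
    (Pr (M.map fun w => (cycQ p σ ^ w) ^ a)
        ((inc p n X : Matrix (Fin n) (Fin n) ℚ_[p]) ^ a)) ^ r := by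
  rw [map_pow, Pr_map, map_pow, List.map_map]
  congr 2
  congr 1
  ext m
  change (((((cyc p σ) ^ m : ℤ_[p]ˣ) : ℤ_[p]) ^ a : ℤ_[p]) : ℚ_[p]) = _
  rw [PadicInt.coe_pow, cyc_zpow]

theorem charpoly_eq {X Y P : GL (Fin n) ℚ_[p]} (h : Y = P * X * P⁻¹) :
    (Y : Matrix (Fin n) (Fin n) ℚ_[p]).charpoly = (X : Matrix (Fin n) (Fin n) ℚ_[p]).charpoly := by
  rw [h, Units.val_mul, Units.val_mul, Matrix.charpoly_mul_comm, ← mul_assoc, Units.inv_mul,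
    one_mul]

/-- **Eigenvalues of Tate type.** -/
theorem stab_eig (hΓ : IsOpen (Γ : Set GQ))
    (hΓS : ∀ q : ℕ, q.Prime → q ∉ S → ∀ P : Ideal ZBar, P.IsMaximal → (q : ZBar) ∈ P →
      ∀ τ : GQ, InInertia P τ → τ ∈ Γ) (T : ℕ → ℕ) (hT : ∀ i, (T i).Prime) (M : List ℤ) (i0 : ℕ) :
    ∃ m : ℕ, ∀ ρ : Γ →* GL (Fin n) ℚ_[p], Continuous ρ →
      (∀ q : ℕ, q.Prime → q ∉ S → ∀ P : Ideal ZBar, P.IsMaximal → (q : ZBar) ∈ P →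
        ∀ τ : GQ, ∀ h : τ ∈ Γ, InInertia P τ → ρ ⟨τ, h⟩ = 1) →
      (∀ i, i0 ≤ i → i < m → T i ∉ S → T i ≠ p → ∀ P : Ideal ZBar, P.IsMaximal → (T i : ZBar) ∈ P →
        ∀ σ : GQ, ∀ h : σ ∈ Γ, IsGeomFrob (T i) P σ → ∀ z : AlgebraicClosure ℚ_[p],
              aeval z (ρ ⟨σ, h⟩ : Matrix (Fin n) (Fin n) ℚ_[p]).charpoly = 0 →
              ∃ a : ℕ, 0 < a ∧ ∃ w ∈ M, z ^ a = (T i : AlgebraicClosure ℚ_[p]) ^ (w * a : ℤ)) →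
      ∀ i, i0 ≤ i → T i ∉ S → T i ≠ p → ∀ P : Ideal ZBar, P.IsMaximal → (T i : ZBar) ∈ P →
        ∀ σ : GQ, ∀ h : σ ∈ Γ, IsGeomFrob (T i) P σ → ∀ z : AlgebraicClosure ℚ_[p],
              aeval z (ρ ⟨σ, h⟩ : Matrix (Fin n) (Fin n) ℚ_[p]).charpoly = 0 →
              ∃ a : ℕ, 0 < a ∧ ∃ w ∈ M, z ^ a = (T i : AlgebraicClosure ℚ_[p]) ^ (w * a : ℤ) := by
  obtain ⟨m, hm⟩ := stab_frob (p := p) (n := n) hΓ hΓS T M n i0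
  refine ⟨m, fun ρ hρ hS hfin => ?_⟩
  obtain ⟨B, R, hR⟩ := exists_rep hΓ hΓS ρ hρ hS
  have h1 := hm R (by
    intro i hi0 him hiS hip P hP hTP σ h hσ
    have hq0 : ((T i : ℕ) : ℚ_[p]) ≠ 0 := by exact_mod_cast (hT i).ne_zero
    obtain ⟨a, ha, h2⟩ := eig (inc p n (R.rho ⟨σ, h⟩) : Matrix (Fin n) (Fin n) ℚ_[p]) M
      (T i : ℚ_[p]) hq0 (by
        intro z hz
        rw [map_natCast]
        rw [charpoly_eq (hR ⟨σ, h⟩)] at hz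
        exact hfin i hi0 him hiS hip P hP hTP σ h hσ z hz)
    refine ⟨a, ha, ?_⟩
    apply inc_mat_inj
    change (algebraMap ℤ_[p] ℚ_[p]).mapMatrix _ = (algebraMap ℤ_[p] ℚ_[p]).mapMatrix 0
    rw [Pr_inc, map_zero, ← h2]
    have h3 : cycQ p σ = ((T i : ℕ) : ℚ_[p])⁻¹ := cyc_frob p (hT i) hip hP hTP hσ
    rw [h3])
  intro i hi0 hiS hip P hP hTP σ h hσ z hz
  have h2 := h1 i hi0 hiS hip P hP hTP σ h hσ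
  have h3 : (Pr (M.map fun w => (cycQ p σ ^ w) ^ ex p n)
        ((inc p n (R.rho ⟨σ, h⟩) : Matrix (Fin n) (Fin n) ℚ_[p]) ^ ex p n)) ^ n = 0 := by
    rw [← Pr_inc, h2, map_zero]
  rw [← charpoly_eq (hR ⟨σ, h⟩)] at hz
  obtain ⟨c, hc, h4⟩ := eig_conv _ _ _ _ h3 z hz
  obtain ⟨w, hw, rfl⟩ := List.mem_map.1 hc
  refine ⟨ex p n, Nat.pos_of_ne_zero (ex_ne p n), w, hw, ?_⟩
  have h5 : cycQ p σ = ((T i : ℕ) : ℚ_[p])⁻¹ := cyc_frob p (hT i) hip hP hTP hσ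
  have hq0 : ((T i : ℕ) : AlgebraicClosure ℚ_[p]) ≠ 0 := by exact_mod_cast (hT i).ne_zero
  rw [h5, map_pow, map_zpow₀, map_inv₀, map_natCast, _root_.inv_zpow, ← _root_.zpow_natCast
    (((T i : AlgebraicClosure ℚ_[p]) ^ w)⁻¹), _root_.inv_zpow, ← _root_.zpow_mul] at h4
  exact (eq_inv_of_mul_eq_one_right h4).trans (inv_inv _)

/-- **Frobenius elements of finite order.** -/
theorem stab_ord (hΓ : IsOpen (Γ : Set GQ))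
    (hΓS : ∀ q : ℕ, q.Prime → q ∉ S → ∀ P : Ideal ZBar, P.IsMaximal → (q : ZBar) ∈ P →
      ∀ τ : GQ, InInertia P τ → τ ∈ Γ) (T : ℕ → ℕ) (i0 : ℕ) :
    ∃ m : ℕ, ∀ ρ : Γ →* GL (Fin n) ℚ_[p], Continuous ρ →
      (∀ q : ℕ, q.Prime → q ∉ S → ∀ P : Ideal ZBar, P.IsMaximal → (q : ZBar) ∈ P →
        ∀ τ : GQ, ∀ h : τ ∈ Γ, InInertia P τ → ρ ⟨τ, h⟩ = 1) →
      (∀ i, i0 ≤ i → i < m → T i ∉ S → T i ≠ p → ∀ P : Ideal ZBar, P.IsMaximal → (T i : ZBar) ∈ P →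
        ∀ σ : GQ, ∀ h : σ ∈ Γ, IsGeomFrob (T i) P σ → ∃ a : ℕ, a ≠ 0 ∧ ρ ⟨σ, h⟩ ^ a = 1) →
      ∀ i, i0 ≤ i → T i ∉ S → T i ≠ p → ∀ P : Ideal ZBar, P.IsMaximal → (T i : ZBar) ∈ P →
        ∀ σ : GQ, ∀ h : σ ∈ Γ, IsGeomFrob (T i) P σ → ∃ a : ℕ, a ≠ 0 ∧ ρ ⟨σ, h⟩ ^ a = 1 := by
  obtain ⟨m, hm⟩ := stab_frob (p := p) (n := n) hΓ hΓS T [0] 1 i0
  refine ⟨m, fun ρ hρ hS hfin => ?_⟩
  obtain ⟨B, R, hR⟩ := exists_rep hΓ hΓS ρ hρ hS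
  have hpr : ∀ (σ : GQ) (h : σ ∈ Γ) (a : ℕ),
      (Pr (([0] : List ℤ).map fun w => ((cyc p σ ^ w : ℤ_[p]ˣ) : ℤ_[p]) ^ a)
            ((R.rho ⟨σ, h⟩ : Matrix (Fin n) (Fin n) ℤ_[p]) ^ a)) ^ 1 = 0 ↔ ρ ⟨σ, h⟩ ^ a = 1 := by
    intro σ h a
    rw [pow_one, List.map_cons, List.map_nil, Pr_cons, Pr_nil, mul_one, _root_.zpow_zero,
      Units.val_one, one_pow, one_smul, sub_eq_zero]
    have h1 : inc p n (R.rho ⟨σ, h⟩ ^ a) = B * (ρ ⟨σ, h⟩ ^ a) * B⁻¹ := by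
      rw [map_pow, hR, conj_pow]
    have h2 : (R.rho ⟨σ, h⟩ : Matrix (Fin n) (Fin n) ℤ_[p]) ^ a = 1 ↔ R.rho ⟨σ, h⟩ ^ a = 1 := by
      rw [← Units.val_pow_eq_pow_val]
      exact ⟨fun h3 => Units.ext h3, fun h3 => by rw [h3, Units.val_one]⟩
    rw [h2, ← map_eq_one_iff _ (inc_inj p n), h1]
    exact conj_eq_one_iff
  have h1 := hm R (by
    intro i hi0 him hiS hip P hP hTP σ h hσ
    obtain ⟨a, ha, h2⟩ := hfin i hi0 him hiS hip P hP hTP σ h hσ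
    exact ⟨a, ha, (hpr σ h a).2 h2⟩)
  intro i hi0 hiS hip P hP hTP σ h hσ
  exact ⟨ex p n, ex_ne p n, (hpr σ h _).1 (h1 i hi0 hiS hip P hP hTP σ h hσ)⟩

end

end Pool.Agent.T9h32.FP
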