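import Mathlib

/-! Noetherian rings of analytic functions. -/

set_option autoImplicit false

open Topology Filter
open scoped MvPowerSeries.WithPiTopology

namespace Pool.Agent.T9h32.FP

variable {p : ℕ} [hp : Fact p.Prime]

theorem pinv_lt : (p : ℝ)⁻¹ < 1 := inv_lt_one_of_one_lt₀ (by exact_mod_cast hp.out.one_lt)

theorem linTop : IsLinearTopology ℤ_[p] ℤ_[p] := by
  have hpos : (0 : ℝ) < (p : ℝ)⁻¹ := inv_pos.2 (by exact_mod_cast hp.out.pos)
  have h1 := Metric.nhds_basis_closedBall_pow (x := (0 : ℤ_[p])) hpos pinv_lt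
  refine IsLinearTopology.mk_of_hasBasis' ℤ_[p] (S := Ideal ℤ_[p]) (ι := ℕ) (p := fun _ => True)
    (s := fun k => Ideal.span {(p : ℤ_[p]) ^ k}) ?_ (fun s r m hm => s.mul_mem_left r hm)
  convert h1 using 2 with k
  ext z
  rw [SetLike.mem_coe, ← PadicInt.norm_le_pow_iff_mem_span_pow, Metric.mem_closedBall,
    dist_zero_right, zpow_neg, zpow_natCast, inv_pow]

/-- **Noetherian rings of functions.** -/
theorem exists_ring {X : Type} {ι : Type} [Finite ι] (e : X → ι → ℤ_[p]) (he : ∀ x i, ‖e x i‖ < 1) :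
    ∃ R : Subring (X → ℤ_[p]), IsNoetherianRing R ∧ (∀ c : ℤ_[p], (fun _ => c) ∈ R) ∧
      (∀ i, (fun x => e x i) ∈ R) ∧
      ∀ h : X → ℤ_[p], (∀ k : ℕ, ∃ h' ∈ R, ∀ x, ‖h x - h' x‖ ≤ (p : ℝ) ^ (-(k : ℤ))) → h ∈ R := by
  have : IsLinearTopology ℤ_[p] ℤ_[p] := linTop
  have hev : ∀ x, MvPowerSeries.HasEval (e x) := by
    intro x
    refine ⟨fun i => ?_, ?_⟩
    · exact tendsto_pow_atTop_nhds_zero_of_norm_lt_one (he x i)
    · rw [Filter.cofinite_eq_bot]
      exact tendsto_bot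
  let Φ : MvPowerSeries ι ℤ_[p] →+* (X → ℤ_[p]) :=
    RingHom.pi fun x =>
      (MvPowerSeries.aeval (hev x) : MvPowerSeries ι ℤ_[p] →ₐ[ℤ_[p]] ℤ_[p]).toRingHom
  have hΦ : Continuous Φ := by
    apply continuous_pi
    intro x
    exact MvPowerSeries.continuous_aeval (hev x)
  have hcpt : CompactSpace (MvPowerSeries ι ℤ_[p]) := by
    change CompactSpace ((ι →₀ ℕ) → ℤ_[p])
    infer_instance
  refine ⟨Φ.range, ?_, ?_, ?_, ?_⟩
  · exact isNoetherianRing_of_surjective _ _ Φ.rangeRestrict Φ.rangeRestrict_surjective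
  · intro c
    refine ⟨MvPowerSeries.C c, ?_⟩
    ext1 x
    change MvPowerSeries.aeval (hev x) (MvPowerSeries.C c) = c
    rw [MvPowerSeries.coe_aeval, MvPowerSeries.eval₂_C]
    rfl
  · intro i
    refine ⟨MvPowerSeries.X i, ?_⟩
    ext1 x
    change MvPowerSeries.aeval (hev x) (MvPowerSeries.X i) = e x i
    rw [MvPowerSeries.coe_aeval, MvPowerSeries.eval₂_X]
  · intro h hh
    have hcl : IsClosed (Set.range Φ) := (isCompact_range hΦ).isClosed
    change h ∈ Set.range Φ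
    choose h' hh1 hh2 using hh
    apply hcl.mem_of_tendsto (f := h') (b := atTop)
    · rw [tendsto_pi_nhds]
      intro x
      rw [tendsto_iff_norm_sub_tendsto_zero]
      apply squeeze_zero (t₀ := atTop) (f := fun k : ℕ => ‖h' k x - h x‖)
        (g := fun k : ℕ => ((p : ℝ)⁻¹) ^ k) (fun k => norm_nonneg _)
      · intro k
        rw [norm_sub_rev, inv_pow, ← zpow_natCast, ← zpow_neg]
        exact hh2 k x
      · exact tendsto_pow_atTop_nhds_zero_of_lt_one (inv_nonneg.2 (Nat.cast_nonneg _)) pinv_lt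
    · exact Eventually.of_forall hh1

/-- a descending family of conditions stabilizes -/
theorem stabilize {X A : Type} [CommRing A] (R : Subring (X → A)) [IsNoetherianRing R]
    (h : ℕ → Set (X → A)) (hR : ∀ i, h i ⊆ R) : ∃ m : ℕ, ∀ x : X,
      (∀ i < m, ∀ φ ∈ h i, φ x = 0) → ∀ i, ∀ φ ∈ h i, φ x = 0 := by
  let I : ℕ →o Ideal R := ⟨fun m => Ideal.span {r : R | ∃ i < m, (r : X → A) ∈ h i}, by
    intro m m' hm
    apply Ideal.span_mono
    rintro r ⟨i, hi, hr⟩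
    exact ⟨i, lt_of_lt_of_le hi hm, hr⟩⟩
  obtain ⟨m, hm⟩ := monotone_stabilizes_iff_noetherian.2 ‹IsNoetherianRing R› I
  refine ⟨m, fun x hx i φ hφ => ?_⟩
  let ev : R →+* A := (Pi.evalRingHom (fun _ : X => A) x).comp R.subtype
  have h1 : I m ≤ RingHom.ker ev := by
    apply Ideal.span_le.2
    rintro r ⟨j, hj, hr⟩
    exact hx j hj _ hr
  have h2 : (⟨φ, hR i hφ⟩ : R) ∈ I (max m (i + 1)) :=
    Ideal.subset_span ⟨i, lt_of_lt_of_le (Nat.lt_succ_self i) (le_max_right _ _), hφ⟩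
  rw [← hm _ (le_max_left _ _)] at h2
  exact h1 h2

end Pool.Agent.T9h32.FP
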