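import Mathlib

/-! Linear functionals on the powers of a matrix which is congruent to one. -/

set_option autoImplicit false

open Polynomial Finset

namespace Pool.Agent.T9h32.FP

variable {p : ℕ} [hp : Fact p.Prime]

theorem dvd_p_pow (k : ℕ) (hk : 1 ≤ k) : ((k : ℕ) : ℤ_[p]) ∣ (p : ℤ_[p]) ^ (k - 1) := by
  obtain ⟨v, k', hk', hkv⟩ := Nat.exists_eq_pow_mul_and_not_dvd (n := k) (by omega) p
    hp.out.one_lt.ne'
  have hv : v ≤ k - 1 := by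
    have h1 : v < p ^ v := Nat.lt_pow_self hp.out.one_lt
    have h2 : p ^ v ≤ k := by
      rw [hkv]
      apply Nat.le_mul_of_pos_right
      rcases Nat.eq_zero_or_pos k' with h | h
      · exact absurd (h ▸ dvd_zero p) hk'
      · exact h
    omega
  have hu : IsUnit ((k' : ℕ) : ℤ_[p]) := by
    rw [PadicInt.isUnit_iff, PadicInt.norm_natCast_eq_one_iff]
    exact (Nat.Prime.coprime_iff_not_dvd hp.out).2 hk'
  rw [hkv, Nat.cast_mul, Nat.cast_pow, IsUnit.mul_right_dvd hu]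
  exact pow_dvd_pow _ (by omega)

theorem exists_b (N k : ℕ) (hN : 1 ≤ N) (hk : 1 ≤ k) : ∃ b : ℤ_[p],
    ((N.choose k : ℕ) : ℤ_[p]) * (p : ℤ_[p]) ^ k = (N : ℤ_[p]) * p * b := by
  obtain ⟨c, hc⟩ := dvd_p_pow (p := p) k hk
  obtain ⟨N', rfl⟩ : ∃ N', N = N' + 1 := ⟨N - 1, by omega⟩
  obtain ⟨k', rfl⟩ : ∃ k', k = k' + 1 := ⟨k - 1, by omega⟩
  refine ⟨(N'.choose k' : ℕ) * c, ?_⟩
  have h1 : (((N' + 1).choose (k' + 1) : ℕ) : ℤ_[p]) * ((k' + 1 : ℕ) : ℤ_[p]) =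
      ((N' + 1 : ℕ) : ℤ_[p]) * ((N'.choose k' : ℕ) : ℤ_[p]) := by
    have h2 := Nat.add_one_mul_choose_eq N' k'
    exact_mod_cast h2.symm
  rw [Nat.add_sub_cancel] at hc
  calc (((N' + 1).choose (k' + 1) : ℕ) : ℤ_[p]) * (p : ℤ_[p]) ^ (k' + 1)
      = (((N' + 1).choose (k' + 1) : ℕ) : ℤ_[p]) * ((k' + 1 : ℕ) : ℤ_[p]) * c * p := by
        rw [pow_succ, hc]; ring
    _ = _ := by rw [h1]; ring

/-- the expansion of a power -/
theorem exists_w (N : ℕ) (hN : 1 ≤ N) : ∃ w : ℤ_[p][X],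
    (1 + C (p : ℤ_[p]) * X) ^ N - 1 = C ((N : ℤ_[p]) * p) * (X + X ^ 2 * w) := by
  have h1 : ∀ k : ℕ, ∃ b : ℤ_[p],
      ((N.choose (k + 2) : ℕ) : ℤ_[p]) * (p : ℤ_[p]) ^ (k + 2) = (N : ℤ_[p]) * p * b :=
    fun k => exists_b N (k + 2) hN (by omega)
  choose b hb using h1
  obtain ⟨N', rfl⟩ : ∃ N', N = N' + 1 := ⟨N - 1, by omega⟩
  refine ⟨∑ k ∈ range N', C (b k) * X ^ k, ?_⟩
  have h2 : (1 + C (p : ℤ_[p]) * X) ^ (N' + 1) = ∑ k ∈ range (N' + 2),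
      C (((N' + 1).choose k : ℕ) * (p : ℤ_[p]) ^ k) * X ^ k := by
    rw [add_comm, add_pow]
    refine Finset.sum_congr rfl fun k _ => ?_
    simp only [one_pow, mul_one, mul_pow, map_mul, map_pow, map_natCast]
    ring
  rw [h2, Finset.sum_range_succ', Finset.sum_range_succ']
  have h3 : ∀ k, C ((((N' + 1).choose (k + 1 + 1) : ℕ) : ℤ_[p]) * (p : ℤ_[p]) ^ (k + 1 + 1)) *
      X ^ (k + 1 + 1) = C (((N' + 1 : ℕ) : ℤ_[p]) * p) * (X ^ 2 * (C (b k) * X ^ k)) := by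
    intro k
    rw [hb k, map_mul C (((N' + 1 : ℕ) : ℤ_[p]) * p)]
    ring
  rw [Finset.sum_congr rfl fun k _ => h3 k, ← Finset.mul_sum, ← Finset.mul_sum]
  simp only [zero_add, Nat.choose_one_right, pow_one, Nat.choose_zero_right, pow_zero, mul_one,
    Nat.cast_one, map_one]
  ring

/-- expansion in powers of `X + X ^ 2 w` -/
theorem trunc {R : Type*} [CommRing R] (w f : R[X]) (k : ℕ) :
    ∃ (c : ℕ → R) (r : R[X]),
      f = ∑ l ∈ range k, C (c l) * (X + X ^ 2 * w) ^ l + X ^ k * r := by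
  induction k with
  | zero => exact ⟨fun _ => 0, f, by simp⟩
  | succ k ih =>
    obtain ⟨c, r, h⟩ := ih
    obtain ⟨s, hs⟩ : ∃ s : R[X], (X + X ^ 2 * w) ^ k = X ^ k + X ^ (k + 1) * s := by
      have h1 : (X : R[X]) ∣ (1 + X * w) ^ k - 1 := by
        have h2 := sub_dvd_pow_sub_pow (1 + X * w) 1 k
        rw [one_pow, add_sub_cancel_left] at h2
        exact (dvd_mul_right X w).trans h2
      obtain ⟨s, hs⟩ := h1
      refine ⟨s, ?_⟩
      have h3 : (X + X ^ 2 * w : R[X]) = X * (1 + X * w) := by ring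
      rw [h3, mul_pow, eq_add_of_sub_eq hs]
      ring
    refine ⟨fun l => if l = k then r.coeff 0 else c l, r.divX - C (r.coeff 0) * s, ?_⟩
    rw [Finset.sum_range_succ]
    have h4 : ∑ l ∈ range k, C ((fun l => if l = k then r.coeff 0 else c l) l) *
        (X + X ^ 2 * w) ^ l = ∑ l ∈ range k, C (c l) * (X + X ^ 2 * w) ^ l := by
      refine Finset.sum_congr rfl fun l hl => ?_
      have : l ≠ k := (Finset.mem_range.1 hl).ne
      simp only [this, if_false]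
    rw [h4]
    simp only [if_true]
    have h5 := Polynomial.divX_mul_X_add r
    have h6 : X ^ k * r = C (r.coeff 0) * (X + X ^ 2 * w) ^ k +
        X ^ (k + 1) * (r.divX - C (r.coeff 0) * s) := by
      rw [hs]
      conv_lhs => rw [← h5]
      ring
    rw [add_assoc, ← h6]
    exact h

/-- **The main lemma.** -/
theorem tau_main {M : Type*} [Ring M] [Algebra ℤ_[p] M] (τ : M →ₗ[ℤ_[p]] ℤ_[p]) (Y : M) (N : ℕ)
    (hN : 1 ≤ N) (J : Ideal ℤ_[p]) (h : ∀ l : ℕ, τ ((1 + (p : ℤ_[p]) ^ 2 • Y) ^ (N * l)) ∈ J)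
    (i k : ℕ) : ((N : ℤ_[p]) * p) ^ k * τ ((1 + (p : ℤ_[p]) ^ 2 • Y) ^ i) ∈
      J ⊔ Ideal.span {((N : ℤ_[p]) * p) ^ k * (p : ℤ_[p]) ^ k} := by
  obtain ⟨w, hw⟩ := exists_w (p := p) N hN
  obtain ⟨c, r, hc⟩ := trunc w ((1 + C (p : ℤ_[p]) * X) ^ i) k
  let x : M := (p : ℤ_[p]) • Y
  let φ : ℤ_[p][X] →ₐ[ℤ_[p]] M := Polynomial.aeval x
  have e1 : φ (1 + C (p : ℤ_[p]) * X) = 1 + (p : ℤ_[p]) ^ 2 • Y := by
    rw [map_add, map_one, map_mul, Polynomial.aeval_C, Polynomial.aeval_X, ← Algebra.smul_def,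
      smul_smul, ← pow_two]
  have e2 : φ (X ^ k * r) = (p : ℤ_[p]) ^ k • (Y ^ k * φ r) := by
    rw [map_mul, map_pow, Polynomial.aeval_X, _root_.smul_pow, smul_mul_assoc]
  set Cc : M := 1 + (p : ℤ_[p]) ^ 2 • Y with hCc
  have e3 : ((N : ℤ_[p]) * p) • φ (X + X ^ 2 * w) = Cc ^ N - 1 := by
    rw [Algebra.smul_def, ← Polynomial.aeval_C x, ← map_mul, ← hw, map_sub, map_pow, e1, map_one]
  have h1 : ∀ l : ℕ, τ ((Cc ^ N - 1) ^ l) ∈ J := by
    intro l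
    have hcomm : Commute (Cc ^ N) (-1) := Commute.neg_right (Commute.one_right _)
    have h2 : (Cc ^ N - 1) ^ l = ∑ m ∈ range (l + 1),
        ((-1 : ℤ_[p]) ^ (l - m) * (l.choose m : ℕ)) • Cc ^ (N * m) := by
      rw [sub_eq_add_neg, hcomm.add_pow]
      refine Finset.sum_congr rfl fun m _ => ?_
      have h3 : Commute (Cc ^ (N * m)) ((-1) ^ (l - m) * ((l.choose m : ℕ) : M)) :=
        Commute.mul_right (Commute.pow_right (Commute.neg_right (Commute.one_right _)) _)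
          (Nat.cast_commute _ _).symm
      rw [← pow_mul, mul_smul, Nat.cast_smul_eq_nsmul, nsmul_eq_mul, Algebra.smul_def, map_pow,
        map_neg, map_one, ← mul_assoc, mul_assoc]
      exact h3.eq
    rw [h2, map_sum]
    refine Ideal.sum_mem _ fun m _ => ?_
    rw [map_smul, smul_eq_mul]
    exact J.mul_mem_left _ (h m)
  have h2 : ((N : ℤ_[p]) * p) ^ k • Cc ^ i = ∑ l ∈ range k,
      (((N : ℤ_[p]) * p) ^ (k - l) * c l) • (Cc ^ N - 1) ^ l +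
      (((N : ℤ_[p]) * p) ^ k * (p : ℤ_[p]) ^ k) • (Y ^ k * φ r) := by
    have e4 : Cc ^ i = ∑ l ∈ range k, c l • φ (X + X ^ 2 * w) ^ l +
        (p : ℤ_[p]) ^ k • (Y ^ k * φ r) := by
      rw [← e1, ← map_pow, hc, map_add, map_sum, e2]
      congr 1
      refine Finset.sum_congr rfl fun l _ => ?_
      rw [map_mul, Polynomial.aeval_C, ← Algebra.smul_def, map_pow]
    rw [e4, smul_add, Finset.smul_sum, smul_smul]
    congr 1
    refine Finset.sum_congr rfl fun l hl => ?_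
    have hl' : l ≤ k := (Finset.mem_range.1 hl).le
    rw [← e3, _root_.smul_pow, smul_smul, smul_smul]
    congr 1
    have h3 : ((N : ℤ_[p]) * p) ^ k = ((N : ℤ_[p]) * p) ^ (k - l) * ((N : ℤ_[p]) * p) ^ l := by
      rw [← pow_add, Nat.sub_add_cancel hl']
    rw [h3]
    ring
  have h3 := congrArg τ h2
  rw [map_smul, smul_eq_mul, map_add, map_sum, map_smul, smul_eq_mul] at h3
  rw [h3]
  refine Ideal.add_mem _ (Ideal.mem_sup_left (Ideal.sum_mem _ fun l _ => ?_))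
    (Ideal.mem_sup_right ?_)
  · rw [map_smul, smul_eq_mul]
    exact J.mul_mem_left _ (h1 l)
  · exact Ideal.mul_mem_right _ _ (Ideal.mem_span_singleton_self _)

/-- the exact version -/
theorem tau_zero {M : Type*} [Ring M] [Algebra ℤ_[p] M] (τ : M →ₗ[ℤ_[p]] ℤ_[p]) (Y : M) (N : ℕ)
    (hN : 1 ≤ N) (h : ∀ l : ℕ, τ ((1 + (p : ℤ_[p]) ^ 2 • Y) ^ (N * l)) = 0)
    (i : ℕ) : τ ((1 + (p : ℤ_[p]) ^ 2 • Y) ^ i) = 0 := by
  have hN0 : ((N : ℤ_[p]) * p) ≠ 0 := by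
    apply mul_ne_zero
    · exact_mod_cast (show N ≠ 0 by omega)
    · exact_mod_cast hp.out.ne_zero
  have key : ∀ k : ℕ, (p : ℤ_[p]) ^ k ∣ τ ((1 + (p : ℤ_[p]) ^ 2 • Y) ^ i) := by
    intro k
    have h1 := tau_main τ Y N hN ⊥ (fun l => by rw [h l]; exact Ideal.zero_mem _) i k
    rw [bot_sup_eq, Ideal.mem_span_singleton] at h1
    exact (mul_dvd_mul_iff_left (pow_ne_zero k hN0)).1 h1
  by_contra hne
  obtain ⟨k, hk⟩ := PadicInt.exists_pow_neg_lt p (norm_pos_iff.2 hne)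
  have h1 := (PadicInt.norm_le_pow_iff_mem_span_pow _ k).2 (Ideal.mem_span_singleton.2 (key k))
  exact absurd hk (not_lt.2 h1)

/-- the approximate version -/
theorem tau_approx {M : Type*} [Ring M] [Algebra ℤ_[p] M] (τ : M →ₗ[ℤ_[p]] ℤ_[p]) (Y : M) (N j : ℕ)
    (hN : 1 ≤ N)
    (h : ∀ l : ℕ, (p : ℤ_[p]) ^ (j * N) ∣ τ ((1 + (p : ℤ_[p]) ^ 2 • Y) ^ (N * l))) (i : ℕ) :
    (p : ℤ_[p]) ^ (j / 2) ∣ τ ((1 + (p : ℤ_[p]) ^ 2 • Y) ^ i) := by
  have hN0 : ((N : ℤ_[p]) * p) ≠ 0 := by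
    apply mul_ne_zero
    · exact_mod_cast (show N ≠ 0 by omega)
    · exact_mod_cast hp.out.ne_zero
  have h1 := tau_main τ Y N hN (Ideal.span {(p : ℤ_[p]) ^ (j * N)})
    (fun l => Ideal.mem_span_singleton.2 (h l)) i (j / 2)
  have h2 : ((N : ℤ_[p]) * p) ^ (j / 2) * (p : ℤ_[p]) ^ (j / 2) ∣ (p : ℤ_[p]) ^ (j * N) := by
    obtain ⟨c, hc⟩ := dvd_p_pow (p := p) N hN
    have h3 : (p : ℤ_[p]) ^ ((N - 1) * (j / 2) + 2 * (j / 2)) =
        (((N : ℤ_[p]) * p) ^ (j / 2) * (p : ℤ_[p]) ^ (j / 2)) * c ^ (j / 2) := by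
      rw [pow_add, pow_mul, hc, pow_mul]
      ring
    refine (Dvd.intro _ h3.symm).trans (pow_dvd_pow _ ?_)
    have h4 : 2 * (j / 2) ≤ j := Nat.mul_div_le j 2
    obtain ⟨N', rfl⟩ : ∃ N', N = N' + 1 := ⟨N - 1, by omega⟩
    rw [Nat.add_sub_cancel]
    have h5 : N' * (j / 2) ≤ N' * j := Nat.mul_le_mul_left _ (Nat.div_le_self j 2)
    calc N' * (j / 2) + 2 * (j / 2) ≤ N' * j + j := Nat.add_le_add h5 h4
      _ = j * (N' + 1) := by ring
  have h3 : Ideal.span {(p : ℤ_[p]) ^ (j * N)} ⊔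
      Ideal.span {((N : ℤ_[p]) * p) ^ (j / 2) * (p : ℤ_[p]) ^ (j / 2)} ≤
      Ideal.span {((N : ℤ_[p]) * p) ^ (j / 2) * (p : ℤ_[p]) ^ (j / 2)} :=
    sup_le (Ideal.span_singleton_le_span_singleton.2 h2) le_rfl
  have h4 := Ideal.mem_span_singleton.1 (h3 h1)
  exact (mul_dvd_mul_iff_left (pow_ne_zero _ hN0)).1 h4

end Pool.Agent.T9h32.FP
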