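import Pool.Agent.T9h32.FP.Fam

/-! Analytic conditions on the family of all integral representations stabilize. -/

set_option autoImplicit false

open Matrix IsLocalRing Finset NumberField Topology

namespace Pool.Agent.T9h32.FP

attribute [local instance 10] DivisionRing.toRatAlgebra

open Pool.Agent.Y800 Pool.Agent.Y802.TS

variable (Γ : Subgroup GQ) (p : ℕ) [hp : Fact p.Prime] (n : ℕ) (S : Finset ℕ)

/-- the ring of functions generated by the constants and the entries of the matrices -/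
noncomputable def Reg : Subring (Rep Γ p n S → ℤ_[p]) :=
  Subring.closure ({f | ∃ c : ℤ_[p], f = fun _ => c} ∪
    {f | ∃ (g : Γ) (a b : Fin n), f = fun ρ => (ρ.1 g : Matrix (Fin n) (Fin n) ℤ_[p]) a b})

variable {Γ p n S}

theorem toZMod_norm {x y : ℤ_[p]} (h : PadicInt.toZMod x = PadicInt.toZMod y) : ‖x - y‖ < 1 := by
  have h1 : x - y ∈ RingHom.ker (PadicInt.toZMod (p := p)) := by
    rw [RingHom.mem_ker, map_sub, h, sub_self]
  rw [PadicInt.ker_toZMod] at h1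
  exact PadicInt.mem_nonunits.1 h1

section cls

variable {ι : Type} (r : ι → Γ)

/-- the generators and their inverses -/
noncomputable def rb (i : ι) (b : Bool) : Γ := if b then r i else (r i)⁻¹

/-- the residue class of a representation -/
noncomputable def cls (ρ : Rep Γ p n S) (j : ι × Bool × Fin n × Fin n) : ZMod p :=
  PadicInt.toZMod ((ρ.1 (rb r j.1 j.2.1) : Matrix (Fin n) (Fin n) ℤ_[p]) j.2.2.1 j.2.2.2)

theorem exists_lift (z : ZMod p) : ∃ x : ℤ_[p], PadicInt.toZMod x = z :=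
  ZMod.ringHom_surjective _ z

theorem cls_ring [Finite ι] (hr : ∀ k : ℕ, ∀ g ∈ Γ,
      ∃ h ∈ (Subgroup.closure (Set.range r)).map Γ.subtype, h⁻¹ * g ∈ Jk Γ p n S k)
    (c : ι × Bool × Fin n × Fin n → ZMod p) :
    ∃ R : Subring ({ρ : Rep Γ p n S // cls r ρ = c} → ℤ_[p]), IsNoetherianRing R ∧
      ∀ f ∈ Reg Γ p n S, (fun ρ => f ρ.1) ∈ R := by
  classical
  choose lift hlift using exists_lift (p := p)
  obtain ⟨R, hN, hC, hE, hcl⟩ := exists_ring (p := p) (X := {ρ : Rep Γ p n S // cls r ρ = c})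
    (ι := ι × Bool × Fin n × Fin n)
    (fun ρ j => (ρ.1.1 (rb r j.1 j.2.1) : Matrix (Fin n) (Fin n) ℤ_[p]) j.2.2.1 j.2.2.2 -
      lift (c j)) (by
      intro ρ j
      apply toZMod_norm
      rw [hlift]
      exact congrFun ρ.2 j)
  refine ⟨R, hN, ?_⟩
  -- the generators
  have h1 : ∀ i b a a', (fun ρ : {ρ : Rep Γ p n S // cls r ρ = c} =>
      (ρ.1.1 (rb r i b) : Matrix (Fin n) (Fin n) ℤ_[p]) a a') ∈ R := by
    intro i b a a'
    have h2 := R.add_mem (hE (i, b, a, a')) (hC (lift (c (i, b, a, a'))))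
    convert h2 using 1
    ext1 ρ
    exact (sub_add_cancel _ _).symm
  -- the group generated by them
  have hmulR : ∀ g h : Γ, (∀ a a', (fun ρ : {ρ : Rep Γ p n S // cls r ρ = c} =>
      (ρ.1.1 g : Matrix (Fin n) (Fin n) ℤ_[p]) a a') ∈ R) →
      (∀ a a', (fun ρ : {ρ : Rep Γ p n S // cls r ρ = c} =>
      (ρ.1.1 h : Matrix (Fin n) (Fin n) ℤ_[p]) a a') ∈ R) →
      (∀ a a', (fun ρ : {ρ : Rep Γ p n S // cls r ρ = c} =>
      (ρ.1.1 (g * h) : Matrix (Fin n) (Fin n) ℤ_[p]) a a') ∈ R) := by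
    intro g h hg hh a a'
    have h2 : (fun ρ : {ρ : Rep Γ p n S // cls r ρ = c} =>
      (ρ.1.1 (g * h) : Matrix (Fin n) (Fin n) ℤ_[p]) a a') = ∑ b : Fin n,
        (fun ρ : {ρ : Rep Γ p n S // cls r ρ = c} =>
          (ρ.1.1 g : Matrix (Fin n) (Fin n) ℤ_[p]) a b) *
        (fun ρ : {ρ : Rep Γ p n S // cls r ρ = c} =>
          (ρ.1.1 h : Matrix (Fin n) (Fin n) ℤ_[p]) b a') := by
      ext1 ρ
      rw [map_mul, Units.val_mul, Matrix.mul_apply, Finset.sum_apply]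
      rfl
    rw [h2]
    exact R.sum_mem fun b _ => R.mul_mem (hg a b) (hh b a')
  have h3 : ∀ g ∈ Subgroup.closure (Set.range r),
      (∀ a a', (fun ρ : {ρ : Rep Γ p n S // cls r ρ = c} =>
        (ρ.1.1 g : Matrix (Fin n) (Fin n) ℤ_[p]) a a') ∈ R) ∧
      (∀ a a', (fun ρ : {ρ : Rep Γ p n S // cls r ρ = c} =>
        (ρ.1.1 g⁻¹ : Matrix (Fin n) (Fin n) ℤ_[p]) a a') ∈ R) := by
    intro g hg
    induction hg using Subgroup.closure_induction with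
    | mem x hx =>
      obtain ⟨i, rfl⟩ := hx
      exact ⟨h1 i true, h1 i false⟩
    | one =>
      rw [inv_one]
      have h4 : ∀ a a', (fun ρ : {ρ : Rep Γ p n S // cls r ρ = c} =>
          (ρ.1.1 1 : Matrix (Fin n) (Fin n) ℤ_[p]) a a') ∈ R := by
        intro a a'
        convert hC ((1 : Matrix (Fin n) (Fin n) ℤ_[p]) a a') using 1
        ext1 ρ
        rw [map_one, Units.val_one]
      exact ⟨h4, h4⟩
    | mul x y _ _ hx hy =>
      refine ⟨hmulR x y hx.1 hy.1, ?_⟩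
      rw [_root_.mul_inv_rev]
      exact hmulR _ _ hy.2 hx.2
    | inv x _ hx =>
      refine ⟨hx.2, ?_⟩
      rw [inv_inv]
      exact hx.1
  -- all elements
  have h4 : ∀ (g : Γ) (a a' : Fin n), (fun ρ : {ρ : Rep Γ p n S // cls r ρ = c} =>
        (ρ.1.1 g : Matrix (Fin n) (Fin n) ℤ_[p]) a a') ∈ R := by
    intro g a a'
    apply hcl
    intro k
    obtain ⟨_, ⟨h, hh, rfl⟩, h5⟩ := hr k g.1 g.2
    refine ⟨_, (h3 h hh).1 a a', fun ρ => ?_⟩
    rw [← mem_max_pow]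
    obtain ⟨h6, h7⟩ := mem_Jk.1 h5
    have h8 : (ρ.1.1 g : Matrix (Fin n) (Fin n) ℤ_[p]) - (ρ.1.1 h : Matrix (Fin n) (Fin n) ℤ_[p]) =
        (ρ.1.1 h : Matrix (Fin n) (Fin n) ℤ_[p]) *
        ((ρ.1.1 ⟨(Γ.subtype h)⁻¹ * g.1, h6⟩ : Matrix (Fin n) (Fin n) ℤ_[p]) - 1) := by
      have e1 : (⟨(Γ.subtype h)⁻¹ * g.1, h6⟩ : Γ) = h⁻¹ * g := rfl
      rw [e1, mul_sub, mul_one, ← Units.val_mul, ← map_mul, mul_inv_cancel_left]
    have h9 := congrFun (congrFun h8 a) a'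
    rw [Matrix.sub_apply] at h9
    rw [h9, Matrix.mul_apply]
    exact Ideal.sum_mem _ fun b _ => Ideal.mul_mem_left _ _ (h7 ρ.1 b a')
  -- the conclusion
  let res : (Rep Γ p n S → ℤ_[p]) →+* ({ρ : Rep Γ p n S // cls r ρ = c} → ℤ_[p]) :=
    RingHom.pi fun ρ => Pi.evalRingHom (fun _ => ℤ_[p]) ρ.1
  have h5 : Reg Γ p n S ≤ R.comap res := by
    apply Subring.closure_le.2
    rintro f (⟨c', rfl⟩ | ⟨g, a, b, rfl⟩)
    · exact hC c'
    · exact h4 g a b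
  exact fun f hf => h5 hf

end cls

/-- **The stabilization of analytic conditions.** -/
theorem fam_stab (hΓ : IsOpen (Γ : Set GQ))
    (hΓS : ∀ q : ℕ, q.Prime → q ∉ S → ∀ P : Ideal ZBar, P.IsMaximal → (q : ZBar) ∈ P →
      ∀ τ : GQ, InInertia P τ → τ ∈ Γ)
    (h : ℕ → Set (Rep Γ p n S → ℤ_[p])) (hh : ∀ i, h i ⊆ Reg Γ p n S) :
    ∃ m : ℕ, ∀ ρ, (∀ i < m, ∀ φ ∈ h i, φ ρ = 0) → ∀ i, ∀ φ ∈ h i, φ ρ = 0 := by
  classical
  obtain ⟨ι, hι, r, hr⟩ := top_gen (p := p) (n := n) hΓ hΓS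
  have hne : NeZero p := ⟨hp.out.ne_zero⟩
  have := Fintype.ofFinite ι
  have key : ∀ c : ι × Bool × Fin n × Fin n → ZMod p, ∃ m : ℕ,
      ∀ ρ : {ρ : Rep Γ p n S // cls r ρ = c}, (∀ i < m, ∀ φ ∈ h i, φ ρ.1 = 0) →
        ∀ i, ∀ φ ∈ h i, φ ρ.1 = 0 := by
    intro c
    obtain ⟨R, hR, h1⟩ := cls_ring r hr c
    obtain ⟨m, hm⟩ := stabilize R (fun i => {φ' | ∃ φ ∈ h i, φ' = fun ρ => φ ρ.1}) (by
      rintro i _ ⟨φ, hφ, rfl⟩
      exact h1 φ (hh i hφ))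
    refine ⟨m, fun ρ hρ i φ hφ => ?_⟩
    refine hm ρ ?_ i _ ⟨φ, hφ, rfl⟩
    rintro j hj _ ⟨ψ, hψ, rfl⟩
    exact hρ j hj ψ hψ
  choose m hm using key
  refine ⟨Finset.univ.sup m, fun ρ hρ => ?_⟩
  refine hm (cls r ρ) ⟨ρ, rfl⟩ fun i hi φ hφ => hρ i ?_ φ hφ
  exact lt_of_lt_of_le hi (Finset.le_sup (f := m) (Finset.mem_univ _))

end Pool.Agent.T9h32.FP
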