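import Pool.Agent.T9h32.FP.Main

/-! Uniformity in the number field. -/

set_option autoImplicit false

open Matrix IsLocalRing Finset NumberField Topology Polynomial Module

namespace Pool.Agent.T9h32.FP

attribute [local instance 10] DivisionRing.toRatAlgebra

open Pool.Agent.Y800 Pool.Agent.Y802.TS

theorem fin_ge (H : Subgroup GQ) (hH : IsOpen (H : Set GQ)) : {Γ : Subgroup GQ | H ≤ Γ}.Finite := by
  have hfin : Finite (GQ ⧸ H) := Subgroup.quotient_finite_of_isOpen _ hH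
  let φ : Subgroup GQ → Set (GQ ⧸ H) := fun Γ => {q | ∃ g ∈ Γ, (QuotientGroup.mk g : GQ ⧸ H) = q}
  have hinj : Set.InjOn φ {Γ : Subgroup GQ | H ≤ Γ} := by
    have key : ∀ Γ Γ' : Subgroup GQ, H ≤ Γ' → φ Γ ⊆ φ Γ' → Γ ≤ Γ' := by
      intro Γ Γ' h' hsub g hg
      obtain ⟨g', hg', he⟩ := hsub ⟨g, hg, rfl⟩
      have h1 : g'⁻¹ * g ∈ H := QuotientGroup.eq.1 he
      have h2 := Γ'.mul_mem hg' (h' h1)
      rwa [mul_inv_cancel_left] at h2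
    intro Γ hΓ Γ' hΓ' he
    exact le_antisymm (key _ _ hΓ' he.subset) (key _ _ hΓ he.symm.subset)
  exact Set.Finite.of_finite_image (Set.toFinite _) hinj

/-- the open subgroups of bounded index which contain almost all inertia groups -/
def Gd (S : Finset ℕ) (d : ℕ) : Set (Subgroup GQ) := {Γ | IsOpen (Γ : Set GQ) ∧ Γ.index ≤ d ∧
  ∀ q : ℕ, q.Prime → q ∉ S → ∀ P : Ideal ZBar, P.IsMaximal → (q : ZBar) ∈ P →
      ∀ τ : GQ, InInertia P τ → τ ∈ Γ}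

theorem Gd_finite (S : Finset ℕ) (d : ℕ) : (Gd S d).Finite := by
  refine (fin_ge (H0 S d.factorial) (H0_open _ _)).subset ?_
  rintro Γ ⟨h1, h2, h3⟩
  exact H0_le h1 (Nat.factorial_le h2) h3

theorem unif (S : Finset ℕ) (d : ℕ) (Q : Subgroup GQ → ℕ → Prop)
    (hmono : ∀ Γ m m', m ≤ m' → Q Γ m → Q Γ m') (h : ∀ Γ ∈ Gd S d, ∃ m, Q Γ m) :
    ∃ m, ∀ Γ ∈ Gd S d, Q Γ m := by
  classical
  choose! m hm using h
  refine ⟨(Gd_finite S d).toFinset.sup m, fun Γ hΓ => ?_⟩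
  exact hmono Γ _ _ (Finset.le_sup (f := m) ((Gd_finite S d).mem_toFinset.2 hΓ)) (hm Γ hΓ)

/-- **The main theorem.** -/
theorem fin_main (f : ℕ → ℕ) :
    ∃ (T : ℕ → ℕ) (k L : IntermediateField ℚ (AlgebraicClosure ℚ)),
      (∀ i, (T i).Prime) ∧ (∀ i, f (T i) + T i < T (i + 1)) ∧ IsTower k L T ∧
      ∀ (p : ℕ) [Fact p.Prime] (n d : ℕ) (S : Finset ℕ) (M : List ℤ) (i0 : ℕ), ∃ m : ℕ,
        ∀ Γ ∈ Gd S d, ∀ ρ : Γ →* GL (Fin n) ℚ_[p], Continuous ρ →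
          (∀ q : ℕ, q.Prime → q ∉ S → ∀ P : Ideal ZBar, P.IsMaximal → (q : ZBar) ∈ P →
            ∀ τ : GQ, ∀ h : τ ∈ Γ, InInertia P τ → ρ ⟨τ, h⟩ = 1) →
          ((∀ i, i0 ≤ i → i < m → T i ∉ S → T i ≠ p → ∀ P : Ideal ZBar, P.IsMaximal →
            (T i : ZBar) ∈ P → ∀ σ : GQ, ∀ h : σ ∈ Γ, IsGeomFrob (T i) P σ →
            ∃ a : ℕ, a ≠ 0 ∧ ρ ⟨σ, h⟩ ^ a = 1) → (Set.range ρ).Finite) ∧
          (Pool.Agent.Y802.Irr ρ → 0 < n →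
            (∀ i, i0 ≤ i → i < m → T i ∉ S → T i ≠ p → ∀ P : Ideal ZBar, P.IsMaximal →
            (T i : ZBar) ∈ P → ∀ σ : GQ, ∀ h : σ ∈ Γ, IsGeomFrob (T i) P σ →
            ∀ z : AlgebraicClosure ℚ_[p],
              aeval z (ρ ⟨σ, h⟩ : Matrix (Fin n) (Fin n) ℚ_[p]).charpoly = 0 →
              ∃ a : ℕ, 0 < a ∧ ∃ w ∈ M, z ^ a = (T i : AlgebraicClosure ℚ_[p]) ^ (w * a : ℤ)) →
            ∃ w ∈ M, (Set.range (tw ρ (cycU p Γ) w)).Finite) := by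
  obtain ⟨T, k, L, hT1, hT2, htow, hrep⟩ := main f
  refine ⟨T, k, L, hT1, hT2, htow, ?_⟩
  have hTge : ∀ j, j < T j := by
    intro j
    induction j with
    | zero => exact (hT1 0).pos
    | succ j ih =>
      have := hT2 j
      omega
  intro p hp n d S M i0
  obtain ⟨m1, hm1⟩ := unif S d (fun Γ m => ∀ ρ : Γ →* GL (Fin n) ℚ_[p], Continuous ρ →
      (∀ q : ℕ, q.Prime → q ∉ S → ∀ P : Ideal ZBar, P.IsMaximal → (q : ZBar) ∈ P →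
        ∀ τ : GQ, ∀ h : τ ∈ Γ, InInertia P τ → ρ ⟨τ, h⟩ = 1) →
      (∀ i, i0 ≤ i → i < m → T i ∉ S → T i ≠ p → ∀ P : Ideal ZBar, P.IsMaximal → (T i : ZBar) ∈ P →
        ∀ σ : GQ, ∀ h : σ ∈ Γ, IsGeomFrob (T i) P σ → ∃ a : ℕ, a ≠ 0 ∧ ρ ⟨σ, h⟩ ^ a = 1) →
      ∀ i, i0 ≤ i → T i ∉ S → T i ≠ p → ∀ P : Ideal ZBar, P.IsMaximal → (T i : ZBar) ∈ P →
        ∀ σ : GQ, ∀ h : σ ∈ Γ, IsGeomFrob (T i) P σ → ∃ a : ℕ, a ≠ 0 ∧ ρ ⟨σ, h⟩ ^ a = 1) (by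
      intro Γ m m' hmm h1 ρ hρ hS h2
      exact h1 ρ hρ hS fun i hi0 him => h2 i hi0 (lt_of_lt_of_le him hmm)) (by
      rintro Γ ⟨h1, h2, h3⟩
      exact stab_ord h1 h3 T i0)
  obtain ⟨m2, hm2⟩ := unif S d (fun Γ m => ∀ ρ : Γ →* GL (Fin n) ℚ_[p], Continuous ρ →
      (∀ q : ℕ, q.Prime → q ∉ S → ∀ P : Ideal ZBar, P.IsMaximal → (q : ZBar) ∈ P →
        ∀ τ : GQ, ∀ h : τ ∈ Γ, InInertia P τ → ρ ⟨τ, h⟩ = 1) →
      (∀ i, i0 ≤ i → i < m → T i ∉ S → T i ≠ p → ∀ P : Ideal ZBar, P.IsMaximal → (T i : ZBar) ∈ P →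
        ∀ σ : GQ, ∀ h : σ ∈ Γ, IsGeomFrob (T i) P σ → ∀ z : AlgebraicClosure ℚ_[p],
              aeval z (ρ ⟨σ, h⟩ : Matrix (Fin n) (Fin n) ℚ_[p]).charpoly = 0 →
              ∃ a : ℕ, 0 < a ∧ ∃ w ∈ M, z ^ a = (T i : AlgebraicClosure ℚ_[p]) ^ (w * a : ℤ)) →
      ∀ i, i0 ≤ i → T i ∉ S → T i ≠ p → ∀ P : Ideal ZBar, P.IsMaximal → (T i : ZBar) ∈ P →
        ∀ σ : GQ, ∀ h : σ ∈ Γ, IsGeomFrob (T i) P σ → ∀ z : AlgebraicClosure ℚ_[p],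
              aeval z (ρ ⟨σ, h⟩ : Matrix (Fin n) (Fin n) ℚ_[p]).charpoly = 0 →
              ∃ a : ℕ, 0 < a ∧ ∃ w ∈ M, z ^ a = (T i : AlgebraicClosure ℚ_[p]) ^ (w * a : ℤ)) (by
      intro Γ m m' hmm h1 ρ hρ hS h2
      exact h1 ρ hρ hS fun i hi0 him => h2 i hi0 (lt_of_lt_of_le him hmm)) (by
      rintro Γ ⟨h1, h2, h3⟩
      exact stab_eig h1 h3 T hT1 M i0)
  -- beyond this index the primes are not in `S` and not equal to `p`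
  let i1 : ℕ := max i0 (max (S.sup id) p)
  have hi1 : ∀ i ≥ i1, i0 ≤ i ∧ T i ∉ S ∧ T i ≠ p := by
    intro i hi
    have h1 : i0 ≤ i := le_trans (le_max_left _ _) hi
    have h2 : S.sup id ≤ i := le_trans (le_trans (le_max_left _ _) (le_max_right _ _)) hi
    have h3 : p ≤ i := le_trans (le_trans (le_max_right _ _) (le_max_right _ _)) hi
    have h4 := hTge i
    refine ⟨h1, fun h5 => ?_, by omega⟩
    have h6 : T i ≤ S.sup id := Finset.le_sup (f := id) h5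
    omega
  refine ⟨max m1 m2, fun Γ hΓ ρ hρ hS => ⟨fun hord => ?_, fun hirr hn heig => ?_⟩⟩
  · have h1 := hm1 Γ hΓ ρ hρ hS fun i hi0 him => hord i hi0 (lt_of_lt_of_le him (le_max_left _ _))
    refine (hrep Γ hΓ.1 p n ρ hρ ⟨S, hS⟩).1 ⟨i1, fun i hi => ?_⟩
    obtain ⟨h2, h3, h4⟩ := hi1 i hi
    exact h1 i h2 h3 h4
  · have h1 := hm2 Γ hΓ ρ hρ hS fun i hi0 him => heig i hi0 (lt_of_lt_of_le him (le_max_right _ _))
    refine (hrep Γ hΓ.1 p n ρ hρ ⟨S, hS⟩).2 hirr hn M ⟨i1, fun i hi => ?_⟩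
    obtain ⟨h2, h3, h4⟩ := hi1 i hi
    exact h1 i h2 h3 h4

end Pool.Agent.T9h32.FP
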